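import Pool.Agent.Helper97_Bends.Main

/-!
# An integer test for polygonal drawings
-/

set_option autoImplicit false

open Set

namespace Pool.Agent.Helper97_Bends

/-- the real point of an integer point -/
def toR (p : ℤ × ℤ) : ℝ × ℝ := (p.1, p.2)

theorem toR_injective : Function.Injective toR := by
  intro p q h
  have h1 := congrArg Prod.fst h
  have h2 := congrArg Prod.snd h
  simp only [toR, Int.cast_inj] at h1 h2
  exact Prod.ext h1 h2

/-- integer linear form -/
def lin (f p : ℤ × ℤ) : ℤ := f.1 * p.1 + f.2 * p.2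

/-- real value of the linear form -/
def linR (f : ℤ × ℤ) (p : ℝ × ℝ) : ℝ := f.1 * p.1 + f.2 * p.2

theorem linR_toR (f p : ℤ × ℤ) : linR f (toR p) = (lin f p : ℝ) := by
  simp [linR, toR, lin]

theorem linR_combo (f : ℤ × ℤ) (a b : ℝ) (p q : ℝ × ℝ) :
    linR f (a • p + b • q) = a * linR f p + b * linR f q := by
  simp only [linR, Prod.fst_add, Prod.smul_fst, smul_eq_mul, Prod.snd_add, Prod.smul_snd]
  ring

/-- the linear forms used in the test -/
def forms : List (ℤ × ℤ) :=
  [(1, 0), (-1, 0), (0, 1), (0, -1), (2, 1), (-2, -1), (2, -1), (-2, 1), (1, 1), (-1, -1),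
    (1, -1), (-1, 1)]

/-- `f p > f q ≥ f r, f s` -/
def endTest (f p q r s : ℤ × ℤ) : Bool :=
  decide (lin f q < lin f p) && decide (lin f r ≤ lin f q) && decide (lin f s ≤ lin f q)

/-- `f p, f q > f r, f s` -/
def sepTest (f p q r s : ℤ × ℤ) : Bool :=
  decide (lin f r < lin f p) && decide (lin f s < lin f p) && decide (lin f r < lin f q) &&
    decide (lin f s < lin f q)

theorem endTest_sound {f p q r s : ℤ × ℤ} (h : endTest f p q r s = true) :
    segment ℝ (toR p) (toR q) ∩ segment ℝ (toR r) (toR s) ⊆ {toR q} := by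
  simp only [endTest, Bool.and_eq_true, decide_eq_true_eq] at h
  obtain ⟨⟨h1, h2⟩, h3⟩ := h
  rintro z ⟨⟨a, b, ha, hb, hab, rfl⟩, ⟨c, d, hc, hd, hcd, he⟩⟩
  have e := congrArg (linR f) he
  rw [linR_combo, linR_combo, linR_toR, linR_toR, linR_toR, linR_toR] at e
  have h1' : (lin f q : ℝ) < lin f p := by exact_mod_cast h1
  have h2' : (lin f r : ℝ) ≤ lin f q := by exact_mod_cast h2
  have h3' : (lin f s : ℝ) ≤ lin f q := by exact_mod_cast h3
  have i1 : c * (lin f r : ℝ) + d * lin f s ≤ lin f q := by
    have := mul_le_mul_of_nonneg_left h2' hc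
    have := mul_le_mul_of_nonneg_left h3' hd
    have e3 : c * (lin f q : ℝ) + d * lin f q = lin f q := by rw [← add_mul, hcd, one_mul]
    linarith
  have e4 : a * (lin f q : ℝ) + b * lin f q = lin f q := by rw [← add_mul, hab, one_mul]
  have i2 : a * ((lin f p : ℝ) - lin f q) ≤ 0 := by linarith
  have ha0 : a = 0 := by
    by_contra hne
    have : 0 < a := lt_of_le_of_ne ha (Ne.symm hne)
    nlinarith [mul_pos this (sub_pos.2 h1')]
  subst ha0
  have : b = 1 := by linarith
  subst this
  simp

theorem sepTest_sound {f p q r s : ℤ × ℤ} (h : sepTest f p q r s = true) :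
    segment ℝ (toR p) (toR q) ∩ segment ℝ (toR r) (toR s) ⊆ ∅ := by
  simp only [sepTest, Bool.and_eq_true, decide_eq_true_eq] at h
  obtain ⟨⟨⟨h1, h2⟩, h3⟩, h4⟩ := h
  rintro z ⟨⟨a, b, ha, hb, hab, rfl⟩, ⟨c, d, hc, hd, hcd, he⟩⟩
  have e := congrArg (linR f) he
  rw [linR_combo, linR_combo, linR_toR, linR_toR, linR_toR, linR_toR] at e
  have h1' : (lin f r : ℝ) < lin f p := by exact_mod_cast h1
  have h2' : (lin f s : ℝ) < lin f p := by exact_mod_cast h2
  have h3' : (lin f r : ℝ) < lin f q := by exact_mod_cast h3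
  have h4' : (lin f s : ℝ) < lin f q := by exact_mod_cast h4
  set m := max (lin f r : ℝ) (lin f s) with hm
  have hp : m < lin f p := max_lt h1' h2'
  have hq : m < lin f q := max_lt h3' h4'
  have i1 : c * (lin f r : ℝ) + d * lin f s ≤ m := by
    have := mul_le_mul_of_nonneg_left (le_max_left (lin f r : ℝ) (lin f s)) hc
    have := mul_le_mul_of_nonneg_left (le_max_right (lin f r : ℝ) (lin f s)) hd
    have e3 : c * m + d * m = m := by rw [← add_mul, hcd, one_mul]
    linarith
  have e4 : a * m + b * m = m := by rw [← add_mul, hab, one_mul]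
  rcases ha.eq_or_lt with rfl | ha
  · have : b = 1 := by linarith
    subst this
    linarith
  · have := mul_lt_mul_of_pos_left hp ha
    have := mul_le_mul_of_nonneg_left hq.le hb
    linarith

/-- the segments `pq`, `rs` meet at most in points of the list `A` -/
def pairTest (A : List (ℤ × ℤ)) (p q r s : ℤ × ℤ) : Bool :=
  (decide (p = q) && decide (p ∈ A)) || (decide (r = s) && decide (r ∈ A)) ||
  forms.any fun f => sepTest f p q r s || (decide (q ∈ A) && endTest f p q r s) ||
    (decide (p ∈ A) && endTest f q p r s)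

theorem pairTest_sound {A : List (ℤ × ℤ)} {p q r s : ℤ × ℤ} (h : pairTest A p q r s = true) :
    segment ℝ (toR p) (toR q) ∩ segment ℝ (toR r) (toR s) ⊆ toR '' {x | x ∈ A} := by
  simp only [pairTest, List.any_eq_true, Bool.or_eq_true, Bool.and_eq_true,
    decide_eq_true_eq] at h
  obtain (⟨rfl, h⟩ | ⟨rfl, h⟩) | ⟨f, -, (h | ⟨hq, h⟩) | ⟨hp, h⟩⟩ := h
  · rw [segment_same]
    refine inter_subset_left.trans ?_
    rintro _ rfl
    exact ⟨p, h, rfl⟩
  · rw [segment_same ℝ (toR r)]
    refine inter_subset_right.trans ?_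
    rintro _ rfl
    exact ⟨r, h, rfl⟩
  · exact (sepTest_sound h).trans (empty_subset _)
  · refine (endTest_sound h).trans ?_
    rintro _ rfl
    exact ⟨q, hq, rfl⟩
  · rw [segment_symm ℝ (toR p)]
    refine (endTest_sound h).trans ?_
    rintro _ rfl
    exact ⟨p, hp, rfl⟩

/-- the segment `pq` meets the polygonal curve at most in points of `A` -/
def segPolyTest (A : List (ℤ × ℤ)) (p q : ℤ × ℤ) : List (ℤ × ℤ) → Bool
  | [] => true
  | [r] => pairTest A p q r r
  | r :: s :: l => pairTest A p q r s && segPolyTest A p q (s :: l)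

theorem segPolyTest_sound {A : List (ℤ × ℤ)} {p q : ℤ × ℤ} :
    ∀ {l : List (ℤ × ℤ)}, segPolyTest A p q l = true →
      segment ℝ (toR p) (toR q) ∩ polyline (l.map toR) ⊆ toR '' {x | x ∈ A}
  | [], _ => by simp [polyline]
  | [r], h => by
    have := pairTest_sound (show pairTest A p q r r = true from h)
    rwa [segment_same] at this
  | r :: s :: l, h => by
    simp only [segPolyTest, Bool.and_eq_true] at h
    have h1 := pairTest_sound h.1
    have h2 := segPolyTest_sound h.2
    show segment ℝ (toR p) (toR q) ∩ (segment ℝ (toR r) (toR s) ∪ polyline ((s :: l).map toR)) ⊆ _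
    rw [inter_union_distrib_left]
    exact union_subset h1 h2

/-- two polygonal curves meet at most in points of `A` -/
def polyTest (A : List (ℤ × ℤ)) : List (ℤ × ℤ) → List (ℤ × ℤ) → Bool
  | [], _ => true
  | [p], m => segPolyTest A p p m
  | p :: q :: l, m => segPolyTest A p q m && polyTest A (q :: l) m

theorem polyTest_sound {A : List (ℤ × ℤ)} {m : List (ℤ × ℤ)} :
    ∀ {l : List (ℤ × ℤ)}, polyTest A l m = true →
      polyline (l.map toR) ∩ polyline (m.map toR) ⊆ toR '' {x | x ∈ A}
  | [], _ => by simp [polyline]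
  | [p], h => by
    have := segPolyTest_sound (show segPolyTest A p p m = true from h)
    rwa [segment_same] at this
  | p :: q :: l, h => by
    simp only [polyTest, Bool.and_eq_true] at h
    have h1 := segPolyTest_sound h.1
    have h2 := polyTest_sound h.2
    show (segment ℝ (toR p) (toR q) ∪ polyline ((q :: l).map toR)) ∩ _ ⊆ _
    rw [union_inter_distrib_right]
    exact union_subset h1 h2

/-- simplicity test -/
def simpleTest : List (ℤ × ℤ) → Bool
  | [] => true
  | [_] => true
  | p :: q :: l => decide (p ≠ q) && segPolyTest [q] p q (q :: l) && simpleTest (q :: l)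

theorem simpleTest_sound : ∀ {l : List (ℤ × ℤ)}, simpleTest l = true →
    IsSimplePolyline (l.map toR)
  | [], _ => trivial
  | [_], _ => trivial
  | p :: q :: l, h => by
    simp only [simpleTest, Bool.and_eq_true, decide_eq_true_eq] at h
    obtain ⟨⟨h1, h2⟩, h3⟩ := h
    refine ⟨fun he => h1 (toR_injective he), ?_, simpleTest_sound h3⟩
    have := segPolyTest_sound h2
    refine this.trans ?_
    rintro _ ⟨x, hx, rfl⟩
    simp only [List.mem_singleton, mem_ofPred_eq] at hx
    rw [hx]
    rfl

/-- The drawing of a graph given by integer data. -/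
def drawing {V : Type} (G : SimpleGraph V) (P : V → ℤ × ℤ) (C : V → V → List (ℤ × ℤ))
    (hsymm : ∀ u v, G.Adj u v → C v u = (C u v).reverse) (hinj : Function.Injective P)
    (hsimple : ∀ u v, G.Adj u v → simpleTest (P u :: (C u v ++ [P v])) = true)
    (hoff : ∀ u v, G.Adj u v → ∀ w, w ≠ u → w ≠ v →
      polyTest [] [P w] (P u :: (C u v ++ [P v])) = true)
    (hcross : ∀ u v, G.Adj u v → ∀ x y, G.Adj x y → s(u, v) ≠ s(x, y) →
      ∃ A : List V, polyTest (A.map P) (P u :: (C u v ++ [P v])) (P x :: (C x y ++ [P y])) = true ∧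
        ∀ w ∈ A, (w = u ∨ w = v) ∧ (w = x ∨ w = y)) : PlaneDrawing G where
  pos v := toR (P v)
  corners u v := (C u v).map toR
  corners_symm u v h := by rw [hsymm u v h, List.map_reverse]
  pos_injective := toR_injective.comp hinj
  simple u v h := by
    have := simpleTest_sound (hsimple u v h)
    simpa using this
  vertex_off u v w h hu hv hmem := by
    have := polyTest_sound (hoff u v h w hu hv)
    have h2 := this (a := toR (P w)) ⟨rfl, by simpa using hmem⟩
    simp at h2
  no_cross u v x y h1 h2 hne := by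
    obtain ⟨A, hA, hA'⟩ := hcross u v h1 x y h2 hne
    have := polyTest_sound hA
    simp only [List.map_cons, List.map_append, List.map_nil] at this
    refine this.trans ?_
    rintro _ ⟨p, hp, rfl⟩
    obtain ⟨w, hw, rfl⟩ := List.mem_map.1 hp
    exact ⟨w, by simpa using hA' w hw, rfl⟩

end Pool.Agent.Helper97_Bends
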