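import Mathlib

/-!
# The closed pentagonal curve of the reference drawings
-/

set_option autoImplicit false

open Set

namespace Pool.Agent.Helper97_Bends

/-- the closed curve of the distinguished cycles in the reference drawings -/
def core (x₀ ε : ℝ) : Set (ℝ × ℝ) :=
  segment ℝ (x₀, 0) (x₀ + 1, ε) ∪ segment ℝ (x₀ + 1, ε) (x₀ + 3, -3 * ε) ∪
    segment ℝ (x₀ + 3, -3 * ε) (x₀ - 3, -3 * ε) ∪ segment ℝ (x₀ - 3, -3 * ε) (x₀ - 1, ε) ∪
    segment ℝ (x₀ - 1, ε) (x₀, 0)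

theorem core_joined {x₀ ε : ℝ} (hε : ε * ε = 1) :
    JoinedIn (core x₀ ε)ᶜ (x₀ - 1, -ε) (x₀ + 1, -ε) := by
  apply JoinedIn.of_segment_subset
  rintro _ ⟨a, b, ha, hb, hab, rfl⟩ hz
  have hεne : ε ≠ 0 := by rintro rfl; norm_num at hε
  rcases hz with (((hz | hz) | hz) | hz) | hz <;> obtain ⟨s, t, hs, ht, hst, he⟩ := hz <;>
    have e1 := congrArg Prod.fst he <;> have e2 := congrArg Prod.snd he <;>
    simp only [Prod.fst_add, Prod.smul_fst, smul_eq_mul, Prod.snd_add, Prod.smul_snd] at e1 e2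
  · have h2 : ε * t = ε * (-1) := by linear_combination e2 - ε * hab
    have := mul_left_cancel₀ hεne h2
    linarith
  · have h2 : ε * (s - 3 * t) = ε * (-1) := by linear_combination e2 - ε * hab
    have h3 := mul_left_cancel₀ hεne h2
    have h1 : s + 3 * t = b - a := by linear_combination e1 - x₀ * hst + x₀ * hab
    linarith
  · have h2 : ε * (-3 * (s + t)) = ε * (-1) := by linear_combination e2 - ε * hab
    have h3 := mul_left_cancel₀ hεne h2
    linarith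
  · have h2 : ε * (-3 * s + t) = ε * (-1) := by linear_combination e2 - ε * hab
    have h3 := mul_left_cancel₀ hεne h2
    have h1 : -3 * s - t = b - a := by linear_combination e1 - x₀ * hst + x₀ * hab
    linarith
  · have h2 : ε * s = ε * (-1) := by linear_combination e2 - ε * hab
    have := mul_left_cancel₀ hεne h2
    linarith

theorem mem_core {x₀ ε : ℝ} (hε : ε * ε = 1) {p : ℝ × ℝ} (h1 : -3 ≤ ε * p.2)
    (h2 : ε * p.2 ≤ |p.1 - x₀|) (h3 : 2 * |p.1 - x₀| + ε * p.2 ≤ 3)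
    (h : ¬ (-3 < ε * p.2 ∧ ε * p.2 < |p.1 - x₀| ∧ 2 * |p.1 - x₀| + ε * p.2 < 3)) :
    p ∈ core x₀ ε := by
  have hp : p = (x₀ + (p.1 - x₀), ε * (ε * p.2)) := by
    ext
    · simp
    · show p.2 = ε * (ε * p.2)
      rw [← mul_assoc, hε, one_mul]
  generalize p.1 - x₀ = u at *
  generalize ε * p.2 = v at *
  subst hp
  by_cases c1 : v = -3
  · have hu : |u| ≤ 3 := by linarith
    rw [abs_le] at hu
    refine Or.inl (Or.inl (Or.inr ⟨(3 + u) / 6, (3 - u) / 6, by linarith, by linarith, by ring, ?_⟩))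
    rw [c1]
    ext
    · simp only [Prod.fst_add, Prod.smul_fst, smul_eq_mul]; ring
    · simp only [Prod.snd_add, Prod.smul_snd, smul_eq_mul]; ring
  by_cases c2 : v = |u|
  · have hu : |u| ≤ 1 := by linarith
    rcases le_total 0 u with h0 | h0
    · rw [abs_of_nonneg h0] at c2 hu
      refine Or.inl (Or.inl (Or.inl (Or.inl ⟨1 - u, u, by linarith, h0, by ring, ?_⟩)))
      rw [c2]
      ext
      · simp only [Prod.fst_add, Prod.smul_fst, smul_eq_mul]; ring
      · simp only [Prod.snd_add, Prod.smul_snd, smul_eq_mul]; ring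
    · rw [abs_of_nonpos h0] at c2 hu
      refine Or.inr ⟨-u, 1 + u, by linarith, by linarith, by ring, ?_⟩
      rw [c2]
      ext
      · simp only [Prod.fst_add, Prod.smul_fst, smul_eq_mul]; ring
      · simp only [Prod.snd_add, Prod.smul_snd, smul_eq_mul]; ring
  have c3 : 2 * |u| + v = 3 := by
    by_contra c3
    exact h ⟨lt_of_le_of_ne h1 (Ne.symm c1), lt_of_le_of_ne h2 c2, lt_of_le_of_ne h3 c3⟩
  have hu1 : 1 ≤ |u| := by linarith
  have hu3 : |u| ≤ 3 := by linarith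
  rcases le_total 0 u with h0 | h0
  · rw [abs_of_nonneg h0] at c3 hu1 hu3
    refine Or.inl (Or.inl (Or.inl (Or.inr ⟨(3 - u) / 2, (u - 1) / 2, by linarith, by linarith,
      by ring, ?_⟩)))
    have : v = 3 - 2 * u := by linarith
    rw [this]
    ext
    · simp only [Prod.fst_add, Prod.smul_fst, smul_eq_mul]; ring
    · simp only [Prod.snd_add, Prod.smul_snd, smul_eq_mul]; ring
  · rw [abs_of_nonpos h0] at c3 hu1 hu3
    refine Or.inl (Or.inr ⟨(-u - 1) / 2, (3 + u) / 2, by linarith, by linarith, by ring, ?_⟩)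
    have : v = 3 + 2 * u := by linarith
    rw [this]
    ext
    · simp only [Prod.fst_add, Prod.smul_fst, smul_eq_mul]; ring
    · simp only [Prod.snd_add, Prod.smul_snd, smul_eq_mul]; ring

theorem core_separates {x₀ ε : ℝ} (hε : ε * ε = 1) {p q : ℝ × ℝ}
    (hp : -3 < ε * p.2 ∧ ε * p.2 < |p.1 - x₀| ∧ 2 * |p.1 - x₀| + ε * p.2 < 3)
    (hq : 3 < 2 * |q.1 - x₀| + ε * q.2) : ¬ JoinedIn (core x₀ ε)ᶜ p q := by
  rintro ⟨γ, hγ⟩
  set O : Set (ℝ × ℝ) := {p | -3 < ε * p.2 ∧ ε * p.2 < |p.1 - x₀| ∧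
    2 * |p.1 - x₀| + ε * p.2 < 3} with hO
  set F : Set (ℝ × ℝ) := {p | -3 ≤ ε * p.2 ∧ ε * p.2 ≤ |p.1 - x₀| ∧
    2 * |p.1 - x₀| + ε * p.2 ≤ 3} with hF
  have c0 : Continuous fun _ : ℝ × ℝ => (-3 : ℝ) := by fun_prop
  have c0' : Continuous fun _ : ℝ × ℝ => (3 : ℝ) := by fun_prop
  have c1 : Continuous fun p : ℝ × ℝ => ε * p.2 := by fun_prop
  have c2 : Continuous fun p : ℝ × ℝ => |p.1 - x₀| := by fun_prop
  have c3 : Continuous fun p : ℝ × ℝ => 2 * |p.1 - x₀| + ε * p.2 := by fun_prop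
  have hOo : IsOpen O := (isOpen_lt c0 c1).inter ((isOpen_lt c1 c2).inter (isOpen_lt c3 c0'))
  have hFc : IsClosed F :=
    (isClosed_le c0 c1).inter ((isClosed_le c1 c2).inter (isClosed_le c3 c0'))
  have hpre : IsPreconnected (range γ) := isPreconnected_range γ.continuous
  have hcov : range γ ⊆ O ∪ Fᶜ := by
    rintro _ ⟨t, rfl⟩
    by_cases hF' : γ t ∈ F
    · left
      by_contra hno
      exact hγ t (mem_core hε hF'.1 hF'.2.1 hF'.2.2 hno)
    · right; exact hF'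
  obtain ⟨z, -, hz1, hz2⟩ := hpre O Fᶜ hOo hFc.isOpen_compl hcov
    ⟨p, ⟨0, γ.source⟩, hp⟩ ⟨q, ⟨1, γ.target⟩, fun h => by
      have := h.2.2
      linarith⟩
  exact hz2 ⟨hz1.1.le, hz1.2.1.le, hz1.2.2.le⟩

end Pool.Agent.Helper97_Bends
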