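import Mathlib

/-!
# Polygonal simultaneous drawings and their embeddings (definitions)
-/

set_option autoImplicit false

namespace Pool.Agent.Helper97_Bends

/-- The polygonal curve with the given consecutive corners (its two end points included). -/
def polyline : List (ℝ × ℝ) → Set (ℝ × ℝ)
  | [] => ∅
  | [p] => {p}
  | p :: q :: l => segment ℝ p q ∪ polyline (q :: l)

/-- The polygonal curve is simple: its segments are nondegenerate, and each segment meets the
rest of the curve only in its end corner. -/
def IsSimplePolyline : List (ℝ × ℝ) → Prop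
  | [] => True
  | [_] => True
  | p :: q :: l =>
      p ≠ q ∧ segment ℝ p q ∩ polyline (q :: l) ⊆ {q} ∧ IsSimplePolyline (q :: l)

/-- A planar polygonal drawing of the graph `G`.  The vertex `v` is drawn at the point `pos v`, the
edge `uv` as the simple polygonal curve from `pos u` to `pos v` with interior corners
`corners u v`. -/
structure PlaneDrawing {V : Type} (G : SimpleGraph V) where
  /-- the points representing the vertices -/
  pos : V → ℝ × ℝ
  /-- the interior corners of the curve of the edge `uv`, listed from `u` to `v` -/
  corners : V → V → List (ℝ × ℝ)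
  /-- the curve of `vu` is the curve of `uv` traversed backwards -/
  corners_symm : ∀ u v, G.Adj u v → corners v u = (corners u v).reverse
  /-- distinct vertices are drawn at distinct points -/
  pos_injective : Function.Injective pos
  /-- every edge is drawn as a simple curve -/
  simple : ∀ u v, G.Adj u v → IsSimplePolyline (pos u :: (corners u v ++ [pos v]))
  /-- the curve of an edge passes through no other vertex point -/
  vertex_off : ∀ u v w, G.Adj u v → w ≠ u → w ≠ v →
    pos w ∉ polyline (pos u :: (corners u v ++ [pos v]))
  /-- the curves of two distinct edges meet only in common end vertices -/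
  no_cross : ∀ u v x y, G.Adj u v → G.Adj x y → s(u, v) ≠ s(x, y) →
    polyline (pos u :: (corners u v ++ [pos v])) ∩ polyline (pos x :: (corners x y ++ [pos y]))
      ⊆ pos '' (({u, v} : Set V) ∩ {x, y})

namespace PlaneDrawing

variable {V : Type} {G : SimpleGraph V}

/-- The curve representing the edge `uv`. -/
def curve (D : PlaneDrawing G) (u v : V) : Set (ℝ × ℝ) :=
  polyline (D.pos u :: (D.corners u v ++ [D.pos v]))

/-- The curve of `uv` has at most `k` bends: it is a polygonal curve with at most `k` interior
corners. -/
def HasAtMostBends (D : PlaneDrawing G) (u v : V) (k : ℕ) : Prop :=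
  ∃ l : List (ℝ × ℝ), l.length ≤ k ∧ D.curve u v = polyline (D.pos u :: (l ++ [D.pos v]))

/-- The angle of the direction in which the edge `vu` leaves the vertex `v`. -/
noncomputable def leavingAngle (D : PlaneDrawing G) (v u : V) : Real.Angle :=
  ((Complex.arg ⟨((D.corners v u).headD (D.pos u)).1 - (D.pos v).1,
    ((D.corners v u).headD (D.pos u)).2 - (D.pos v).2⟩ : ℝ) : Real.Angle)

/-- The edges `vu`, `vw`, `vx` leave the vertex `v` in this counterclockwise cyclic order. -/
def CyclicOrder (D : PlaneDrawing G) (v u w x : V) : Prop :=
  sbtw (D.leavingAngle v u) (D.leavingAngle v w) (D.leavingAngle v x)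

/-- The closed curve formed by the edges of a closed walk (used for cycles of `G`). -/
def closedCurve (D : PlaneDrawing G) {r : V} (Z : G.Walk r r) : Set (ℝ × ℝ) :=
  {x | ∃ u v, s(u, v) ∈ Z.edges ∧ x ∈ D.curve u v}

/-- The vertices `v` and `w` lie on the same side of the cycle `Z` (and not on `Z`): their points
can be joined by a path in the complement of the closed curve of `Z`. -/
def SameSide (D : PlaneDrawing G) {r : V} (Z : G.Walk r r) (v w : V) : Prop :=
  JoinedIn (D.closedCurve Z)ᶜ (D.pos v) (D.pos w)

/-- Two planar drawings of `G` have the same embedding: the same cyclic order of the edges at each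
vertex, and the same relative positions (with respect to every cycle of `G`, the same pairs of
vertices lie on the same side). -/
structure SameEmbedding (D D' : PlaneDrawing G) : Prop where
  /-- same cyclic orders at the vertices -/
  cyclic : ∀ v u w x, G.Adj v u → G.Adj v w → G.Adj v x →
    (D.CyclicOrder v u w x ↔ D'.CyclicOrder v u w x)
  /-- same relative positions -/
  position : ∀ (r : V) (Z : G.Walk r r), Z.IsCycle →
    ∀ v w, (D.SameSide Z v w ↔ D'.SameSide Z v w)

/-- The drawing of a subgraph `H` of `G` contained in a drawing of `G`. -/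
def restrict (D : PlaneDrawing G) {H : SimpleGraph V} (h : H ≤ G) : PlaneDrawing H where
  pos := D.pos
  corners := D.corners
  corners_symm u v huv := D.corners_symm u v (h huv)
  pos_injective := D.pos_injective
  simple u v huv := D.simple u v (h huv)
  vertex_off u v w huv := D.vertex_off u v w (h huv)
  no_cross u v x y huv hxy := D.no_cross u v x y (h huv) (h hxy)

end PlaneDrawing

/-- The embeddings of `G₁` and `G₂` given by two drawings are compatible: they induce the same
embedding of the shared graph. -/
def Compatible {V : Type} {G₁ G₂ : SimpleGraph V} (D₁ : PlaneDrawing G₁)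
    (D₂ : PlaneDrawing G₂) : Prop :=
  (D₁.restrict (inf_le_left : G₁ ⊓ G₂ ≤ G₁)).SameEmbedding
    (D₂.restrict (inf_le_right : G₁ ⊓ G₂ ≤ G₂))

/-- Drawings of `G₁` and `G₂` form a simultaneous drawing: same vertex points, and every shared
edge is one curve used by both graphs. -/
def Simultaneous {V : Type} {G₁ G₂ : SimpleGraph V} (D₁ : PlaneDrawing G₁)
    (D₂ : PlaneDrawing G₂) : Prop :=
  D₁.pos = D₂.pos ∧ ∀ u v, G₁.Adj u v → G₂.Adj u v → D₁.curve u v = D₂.curve u v

/-- `(k₁, k₂)`-drawing: a simultaneous drawing in which every shared edge has at most `k₁` bends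
and every exclusive edge has at most `k₂` bends. -/
structure IsBendDrawing {V : Type} {G₁ G₂ : SimpleGraph V} (k₁ k₂ : ℕ) (D₁ : PlaneDrawing G₁)
    (D₂ : PlaneDrawing G₂) : Prop where
  /-- simultaneous drawing -/
  simultaneous : Simultaneous D₁ D₂
  /-- shared edges -/
  shared : ∀ u v, G₁.Adj u v → G₂.Adj u v → D₁.HasAtMostBends u v k₁
  /-- exclusive edges of `G₁` -/
  exclusive₁ : ∀ u v, G₁.Adj u v → ¬ G₂.Adj u v → D₁.HasAtMostBends u v k₂
  /-- exclusive edges of `G₂` -/
  exclusive₂ : ∀ u v, G₂.Adj u v → ¬ G₁.Adj u v → D₂.HasAtMostBends u v k₂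

end Pool.Agent.Helper97_Bends
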