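import Pool.Agent.Helper97_Bends.Geom

/-!
# Two bent edges at a common centre cannot enclose each other
-/

set_option autoImplicit false

open Set

namespace Pool.Agent.Helper97_Bends

/-- order-theoretic part: if each of `A, B, D, E` is bigger than some other value in its cyclic
list then each is bigger than one of `C, X, Y` -/
theorem min_aux {A B C D E X Y : ℝ} (hD : C < D ∨ A < D ∨ X < D ∨ B < D)
    (hE : C < E ∨ A < E ∨ X < E ∨ B < E) (hA : C < A ∨ D < A ∨ Y < A ∨ E < A)
    (hB : C < B ∨ D < B ∨ Y < B ∨ E < B) : (C < A ∨ X < A ∨ Y < A) ∧ (C < B ∨ X < B ∨ Y < B) ∧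
      (C < D ∨ X < D ∨ Y < D) ∧ (C < E ∨ X < E ∨ Y < E) := by
  have key : ∀ m, m ≤ C → m ≤ X → m ≤ Y → m < A ∧ m < B ∧ m < D ∧ m < E := by
    intro m h1 h2 h3
    have hlt : m < min (min A B) (min D E) := by
      by_contra hcon
      rw [not_lt] at hcon
      rcases le_total A B with hAB | hAB
      · rcases le_total D E with hDE | hDE
        · rw [min_eq_left hAB, min_eq_left hDE] at hcon
          rcases le_total A D with h | h
          · rw [min_eq_left h] at hcon
            rcases hA with hA | hA | hA | hA <;> linarith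
          · rw [min_eq_right h] at hcon
            rcases hD with hD | hD | hD | hD <;> linarith
        · rw [min_eq_left hAB, min_eq_right hDE] at hcon
          rcases le_total A E with h | h
          · rw [min_eq_left h] at hcon
            rcases hA with hA | hA | hA | hA <;> linarith
          · rw [min_eq_right h] at hcon
            rcases hE with hE | hE | hE | hE <;> linarith
      · rcases le_total D E with hDE | hDE
        · rw [min_eq_right hAB, min_eq_left hDE] at hcon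
          rcases le_total B D with h | h
          · rw [min_eq_left h] at hcon
            rcases hB with hB | hB | hB | hB <;> linarith
          · rw [min_eq_right h] at hcon
            rcases hD with hD | hD | hD | hD <;> linarith
        · rw [min_eq_right hAB, min_eq_right hDE] at hcon
          rcases le_total B E with h | h
          · rw [min_eq_left h] at hcon
            rcases hB with hB | hB | hB | hB <;> linarith
          · rw [min_eq_right h] at hcon
            rcases hE with hE | hE | hE | hE <;> linarith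
    rw [lt_min_iff, lt_min_iff, lt_min_iff] at hlt
    exact ⟨hlt.1.1, hlt.1.2, hlt.2.1, hlt.2.2⟩
  obtain ⟨h1, h2, h3, h4⟩ := key (min C (min X Y)) (min_le_left _ _)
    ((min_le_right _ _).trans (min_le_left _ _)) ((min_le_right _ _).trans (min_le_right _ _))
  simp only [min_lt_iff] at h1 h2 h3 h4
  exact ⟨h1, h2, h3, h4⟩

/-- Two one-bend edges `a B b` and `d B' e` around a common centre `c` cannot enclose each other's
end points. -/
theorem no_mutual_enclosure {c a b d e B B' : ℝ × ℝ}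
    (h1d : ¬ Esc (loop c a B b) d) (h1e : ¬ Esc (loop c a B b) e)
    (h2a : ¬ Esc (loop c d B' e) a) (h2b : ¬ Esc (loop c d B' e) b)
    (xd : ∀ z ∈ segment ℝ c d, z ∈ loop c a B b → z = c)
    (xe : ∀ z ∈ segment ℝ c e, z ∈ loop c a B b → z = c)
    (xa : ∀ z ∈ segment ℝ c a, z ∈ loop c d B' e → z = c)
    (xb : ∀ z ∈ segment ℝ c b, z ∈ loop c d B' e → z = c)
    (hdc : d ≠ c) (hec : e ≠ c) (hac : a ≠ c) (hbc : b ≠ c) (hBc : B ≠ c)
    (hab : b ∉ segment ℝ c a) (hba : a ∉ segment ℝ c b)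
    (hde : e ∉ segment ℝ c d) (hed : d ∉ segment ℝ c e)
    (had : d ∉ segment ℝ c a) (hda : a ∉ segment ℝ c d)
    (hae : e ∉ segment ℝ c a) (hea : a ∉ segment ℝ c e) : False := by
  have nd : d ∉ loop c a B b := fun h => hdc (xd d (right_mem_segment ℝ c d) h)
  have ne : e ∉ loop c a B b := fun h => hec (xe e (right_mem_segment ℝ c e) h)
  have na : a ∉ loop c d B' e := fun h => hac (xa a (right_mem_segment ℝ c a) h)
  have nb : b ∉ loop c d B' e := fun h => hbc (xb b (right_mem_segment ℝ c b) h)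
  have hmin : ∀ α β : ℝ, α ≠ 0 ∨ β ≠ 0 → _ := fun α β h0 =>
    min_aux (vertex_lt nd h1d h0) (vertex_lt ne h1e h0) (vertex_lt na h2a h0)
      (vertex_lt nb h2b h0)
  -- a functional for which `c` is the strict minimum
  obtain ⟨α, β, h0, hB, hB'⟩ : ∃ α β : ℝ, (α ≠ 0 ∨ β ≠ 0) ∧
      α * B.1 + β * B.2 = α * c.1 + β * c.2 + 1 ∧
      α * B'.1 + β * B'.2 = α * c.1 + β * c.2 + 1 := by
    by_cases hΔ : (B.1 - c.1) * (B'.2 - c.2) - (B.2 - c.2) * (B'.1 - c.1) = 0
    · exfalso
      have hne : -(B.2 - c.2) ≠ 0 ∨ (B.1 - c.1) ≠ 0 := by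
        by_contra hcon
        push Not at hcon
        apply hBc
        ext
        · linarith [hcon.2]
        · linarith [hcon.1]
      have hne' : (B.2 - c.2) ≠ 0 ∨ -(B.1 - c.1) ≠ 0 := by
        rcases hne with h | h
        · left; intro h'; exact h (by linarith)
        · right; intro h'; exact h (by linarith)
      have e1 : -(B.2 - c.2) * B.1 + (B.1 - c.1) * B.2 = -(B.2 - c.2) * c.1 + (B.1 - c.1) * c.2 := by
        ring
      have e2 : -(B.2 - c.2) * B'.1 + (B.1 - c.1) * B'.2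
          = -(B.2 - c.2) * c.1 + (B.1 - c.1) * c.2 := by
        linarith
      have k1 := (hmin _ _ hne).1
      have k2 := (hmin _ _ hne').1
      rcases k1 with k1 | k1 | k1 <;> rcases k2 with k2 | k2 | k2 <;> linarith
    · set Δ := (B.1 - c.1) * (B'.2 - c.2) - (B.2 - c.2) * (B'.1 - c.1) with hΔdef
      have e1 : (B'.2 - B.2) / Δ * B.1 + (-(B'.1 - B.1) / Δ) * B.2
          = (B'.2 - B.2) / Δ * c.1 + (-(B'.1 - B.1) / Δ) * c.2 + 1 := by
        field_simp
        rw [hΔdef]; ring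
      have e2 : (B'.2 - B.2) / Δ * B'.1 + (-(B'.1 - B.1) / Δ) * B'.2
          = (B'.2 - B.2) / Δ * c.1 + (-(B'.1 - B.1) / Δ) * c.2 + 1 := by
        field_simp
        rw [hΔdef]; ring
      refine ⟨_, _, ?_, e1, e2⟩
      by_contra hcon
      push Not at hcon
      rw [hcon.1, hcon.2] at e1
      norm_num at e1
  obtain ⟨ka, kb, kd, ke⟩ := hmin α β h0
  have ga : α * c.1 + β * c.2 < α * a.1 + β * a.2 := by
    rcases ka with h | h | h <;> linarith
  have gb : α * c.1 + β * c.2 < α * b.1 + β * b.2 := by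
    rcases kb with h | h | h <;> linarith
  have gd : α * c.1 + β * c.2 < α * d.1 + β * d.2 := by
    rcases kd with h | h | h <;> linarith
  have ge : α * c.1 + β * c.2 < α * e.1 + β * e.2 := by
    rcases ke with h | h | h <;> linarith
  have gB : α * c.1 + β * c.2 < α * B.1 + β * B.2 := by linarith
  have gB' : α * c.1 + β * c.2 < α * B'.1 + β * B'.2 := by linarith
  have hΔ : (a.1 - c.1) * (b.2 - c.2) - (a.2 - c.2) * (b.1 - c.1) ≠ 0 := by
    intro h
    rcases same_ray ga gb h with h | h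
    · exact hab h
    · exact hba h
  have hΔ' : (d.1 - c.1) * (e.2 - c.2) - (d.2 - c.2) * (e.1 - c.1) ≠ 0 := by
    intro h
    rcases same_ray gd ge h with h | h
    · exact hde h
    · exact hed h
  have hp0 : (a.1 - c.1) * (d.2 - c.2) - (a.2 - c.2) * (d.1 - c.1) ≠ 0 := by
    intro h
    rcases same_ray ga gd h with h | h
    · exact had h
    · exact hda h
  have hq0 : (a.1 - c.1) * (e.2 - c.2) - (a.2 - c.2) * (e.1 - c.1) ≠ 0 := by
    intro h
    rcases same_ray ga ge h with h | h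
    · exact hae h
    · exact hea h
  have p1 : ¬ ((a.1 - c.1) * (d.2 - c.2) - (a.2 - c.2) * (d.1 - c.1)) *
      ((a.1 - c.1) * (b.2 - c.2) - (a.2 - c.2) * (b.1 - c.1)) < 0 := fun h =>
    h1d (esc_of_outside ga gb gB xd hΔ h)
  have p2 : ¬ ((a.1 - c.1) * (e.2 - c.2) - (a.2 - c.2) * (e.1 - c.1)) *
      ((a.1 - c.1) * (b.2 - c.2) - (a.2 - c.2) * (b.1 - c.1)) < 0 := fun h =>
    h1e (esc_of_outside ga gb gB xe hΔ h)
  have p3 : ¬ ((d.1 - c.1) * (a.2 - c.2) - (d.2 - c.2) * (a.1 - c.1)) *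
      ((d.1 - c.1) * (e.2 - c.2) - (d.2 - c.2) * (e.1 - c.1)) < 0 := fun h =>
    h2a (esc_of_outside gd ge gB' xa hΔ' h)
  have hΔ'' : (e.1 - c.1) * (d.2 - c.2) - (e.2 - c.2) * (d.1 - c.1) ≠ 0 := by
    intro h; apply hΔ'; linarith
  have p4 : ¬ ((e.1 - c.1) * (a.2 - c.2) - (e.2 - c.2) * (a.1 - c.1)) *
      ((e.1 - c.1) * (d.2 - c.2) - (e.2 - c.2) * (d.1 - c.1)) < 0 := fun h => by
    have h3 : ¬ Esc (loop c e B' d) a := by rw [loop_symm]; exact h2a
    have h4 : ∀ z ∈ segment ℝ c a, z ∈ loop c e B' d → z = c := by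
      rw [loop_symm c e B' d]; exact xa
    exact h3 (esc_of_outside ge gd gB' h4 hΔ'' h)
  set P := (a.1 - c.1) * (d.2 - c.2) - (a.2 - c.2) * (d.1 - c.1) with hP
  set Q := (a.1 - c.1) * (e.2 - c.2) - (a.2 - c.2) * (e.1 - c.1) with hQ
  set Δ := (a.1 - c.1) * (b.2 - c.2) - (a.2 - c.2) * (b.1 - c.1) with hΔd
  set Δ' := (d.1 - c.1) * (e.2 - c.2) - (d.2 - c.2) * (e.1 - c.1) with hΔd'
  have e3 : (d.1 - c.1) * (a.2 - c.2) - (d.2 - c.2) * (a.1 - c.1) = -P := by rw [hP]; ring
  have e4 : (e.1 - c.1) * (a.2 - c.2) - (e.2 - c.2) * (a.1 - c.1) = -Q := by rw [hQ]; ring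
  have e5 : (e.1 - c.1) * (d.2 - c.2) - (e.2 - c.2) * (d.1 - c.1) = -Δ' := by rw [hΔd']; ring
  rw [e3] at p3
  rw [e4, e5] at p4
  rw [not_lt] at p1 p2 p3 p4
  have hPQ : 0 ≤ P * Q := by
    have : 0 ≤ (P * Δ) * (Q * Δ) := mul_nonneg p1 p2
    have e : (P * Δ) * (Q * Δ) = (P * Q) * (Δ * Δ) := by ring
    rw [e] at this
    exact nonneg_of_mul_nonneg_left this (mul_self_pos.2 hΔ)
  have hPQ' : P * Q ≤ 0 := by
    have : 0 ≤ (-P * Δ') * (-Q * -Δ') := mul_nonneg p3 p4
    have e : (-P * Δ') * (-Q * -Δ') = (-(P * Q)) * (Δ' * Δ') := by ring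
    rw [e] at this
    have := nonneg_of_mul_nonneg_left this (mul_self_pos.2 hΔ')
    linarith
  exact mul_ne_zero hp0 hq0 (le_antisymm hPQ' hPQ)

end Pool.Agent.Helper97_Bends
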