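import Pool.Agent.Helper97_Bends.Ref
import Pool.Agent.Helper97_Bends.Core

/-!
# Properties of the reference drawings
-/

set_option autoImplicit false

open Set

namespace Pool.Agent.Helper97_Bends

theorem mem_triangle {V : Type} {G : SimpleGraph V} (D : PlaneDrawing G) {c a b : V}
    (h1 : G.Adj c a) (h2 : G.Adj a b) (h3 : G.Adj b c) :
    D.closedCurve (.cons h1 (.cons h2 (.cons h3 .nil)))
      = D.curve c a ∪ D.curve a b ∪ D.curve b c := by
  ext z
  simp only [PlaneDrawing.closedCurve, SimpleGraph.Walk.edges_cons, SimpleGraph.Walk.edges_nil,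
    List.mem_cons, List.not_mem_nil, or_false, mem_ofPred_eq, Sym2.eq_iff]
  constructor
  · rintro ⟨u, v, (h | h | h), hz⟩
    · left; left
      rcases h with ⟨rfl, rfl⟩ | ⟨rfl, rfl⟩
      · exact hz
      · rwa [D.curve_symm h1] at hz
    · left; right
      rcases h with ⟨rfl, rfl⟩ | ⟨rfl, rfl⟩
      · exact hz
      · rwa [D.curve_symm h2] at hz
    · right
      rcases h with ⟨rfl, rfl⟩ | ⟨rfl, rfl⟩
      · exact hz
      · rwa [D.curve_symm h3] at hz
  · rintro ((hz | hz) | hz)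
    · exact ⟨c, a, Or.inl (Or.inl ⟨rfl, rfl⟩), hz⟩
    · exact ⟨a, b, Or.inr (Or.inl (Or.inl ⟨rfl, rfl⟩)), hz⟩
    · exact ⟨b, c, Or.inr (Or.inr (Or.inl ⟨rfl, rfl⟩)), hz⟩

theorem D₁_curve (u v : VV) :
    D₁.curve u v = polyline ((P u :: (C₁ u v ++ [P v])).map toR) := by
  simp [PlaneDrawing.curve, D₁, drawing]

theorem D₂_curve (u v : VV) :
    D₂.curve u v = polyline ((P u :: (C₂ u v ++ [P v])).map toR) := by
  simp [PlaneDrawing.curve, D₂, drawing]

theorem D₁_pos (v : VV) : D₁.pos v = toR (P v) := rfl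

theorem D₂_pos (v : VV) : D₂.pos v = toR (P v) := rfl

theorem polyline_four (p q r s : ℝ × ℝ) : polyline [p, q, r, s] =
    segment ℝ p q ∪ (segment ℝ q r ∪ segment ℝ r s) := by
  show segment ℝ p q ∪ polyline [q, r, s] = _
  rw [polyline_three]

theorem pos0 (j : Fin 3) : toR (P (j, 0)) = (10 * (j.val : ℝ), 0) := by
  simp [toR, P, Helper97_Bends.off]

theorem pos1 (j : Fin 3) : toR (P (j, 1)) = (10 * (j.val : ℝ) + 1, 1) := by
  simp [toR, P, Helper97_Bends.off]

theorem pos2 (j : Fin 3) : toR (P (j, 2)) = (10 * (j.val : ℝ) - 1, 1) := by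
  simp [toR, P, Helper97_Bends.off, sub_eq_add_neg]

theorem pos3 (j : Fin 3) : toR (P (j, 3)) = (10 * (j.val : ℝ) - 1, -1) := by
  simp [toR, P, Helper97_Bends.off, sub_eq_add_neg]

theorem pos4 (j : Fin 3) : toR (P (j, 4)) = (10 * (j.val : ℝ) + 1, -1) := by
  simp [toR, P, Helper97_Bends.off]

theorem Z₁_core (j : Fin 3) : D₁.closedCurve (Z₁ j) = core (10 * (j.val : ℝ)) 1 := by
  rw [Z₁, mem_triangle, D₁_curve, D₁_curve, D₁_curve]
  have e1 : C₁ (j, 0) (j, 1) = [] := by simp [C₁]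
  have e2 : C₁ (j, 1) (j, 2)
      = [(10 * (j.val : ℤ) + 3, -3), (10 * (j.val : ℤ) - 3, -3)] := by simp [C₁]
  have e3 : C₁ (j, 2) (j, 0) = [] := by simp [C₁]
  rw [e1, e2, e3]
  simp only [List.nil_append, List.cons_append, List.map_cons, List.map_nil]
  rw [polyline_two, polyline_two, polyline_four, pos0, pos1, pos2]
  have a1 : toR (10 * (j.val : ℤ) + 3, -3) = (10 * (j.val : ℝ) + 3, -3 * 1) := by simp [toR]
  have a2 : toR (10 * (j.val : ℤ) - 3, -3) = (10 * (j.val : ℝ) - 3, -3 * 1) := by simp [toR]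
  rw [a1, a2, core]
  simp only [union_assoc]

theorem Z₂_core (j : Fin 3) : D₂.closedCurve (Z₂ j) = core (10 * (j.val : ℝ)) (-1) := by
  rw [Z₂, mem_triangle, D₂_curve, D₂_curve, D₂_curve]
  have e1 : C₂ (j, 0) (j, 3) = [] := by simp [C₂]
  have e2 : C₂ (j, 3) (j, 4)
      = [(10 * (j.val : ℤ) - 3, 3), (10 * (j.val : ℤ) + 3, 3)] := by simp [C₂]
  have e3 : C₂ (j, 4) (j, 0) = [] := by simp [C₂]
  rw [e1, e2, e3]
  simp only [List.nil_append, List.cons_append, List.map_cons, List.map_nil]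
  rw [polyline_two, polyline_two, polyline_four, pos0, pos3, pos4]
  have a1 : toR (10 * (j.val : ℤ) + 3, 3) = (10 * (j.val : ℝ) + 3, -3 * -1) := by
    simp [toR]
  have a2 : toR (10 * (j.val : ℤ) - 3, 3) = (10 * (j.val : ℝ) - 3, -3 * -1) := by
    simp [toR]
  rw [a1, a2, core]
  set x := 10 * (j.val : ℝ)
  rw [segment_symm ℝ (x, 0) (x - 1, -1), segment_symm ℝ (x - 1, -1) (x - 3, -3 * -1),
    segment_symm ℝ (x - 3, -3 * -1) (x + 3, -3 * -1), segment_symm ℝ (x + 3, -3 * -1) (x + 1, -1),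
    segment_symm ℝ (x + 1, -1) (x, 0)]
  ext z
  simp only [mem_union]
  tauto

theorem same₁ (j : Fin 3) : D₁.SameSide (Z₁ j) (j, 3) (j, 4) := by
  rw [PlaneDrawing.SameSide, Z₁_core, D₁_pos, D₁_pos, pos3, pos4]
  exact core_joined (by norm_num)

theorem same₂ (j : Fin 3) : D₂.SameSide (Z₂ j) (j, 1) (j, 2) := by
  rw [PlaneDrawing.SameSide, Z₂_core, D₂_pos, D₂_pos, pos1, pos2]
  have := core_joined (x₀ := 10 * (j.val : ℝ)) (ε := -1) (by norm_num)
  rw [neg_neg] at this
  exact this.symm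

theorem far_centre {j k : Fin 3} (h : j ≠ k) : 10 ≤ |10 * (k.val : ℝ) - 10 * (j.val : ℝ)| := by
  have h1 : (k.val : ℤ) - j.val ≠ 0 := by
    intro h2
    apply h
    apply Fin.ext
    omega
  have h2 : 1 ≤ |(k.val : ℤ) - j.val| := Int.one_le_abs h1
  have h3 : (1 : ℝ) ≤ |(k.val : ℝ) - j.val| := by exact_mod_cast h2
  rw [← mul_sub, abs_mul]
  norm_num
  linarith

theorem differ₁ (j k : Fin 3) (h : j ≠ k) : ¬ D₁.SameSide (Z₁ j) (j, 3) (k, 0) := by
  rw [PlaneDrawing.SameSide, Z₁_core, D₁_pos, D₁_pos, pos3, pos0]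
  apply core_separates (by norm_num)
  · simp only [sub_sub_cancel_left, abs_neg, abs_one]
    norm_num
  · have := far_centre h
    simp only
    linarith

theorem differ₂ (j k : Fin 3) (h : j ≠ k) : ¬ D₂.SameSide (Z₂ j) (j, 1) (k, 0) := by
  rw [PlaneDrawing.SameSide, Z₂_core, D₂_pos, D₂_pos, pos1, pos0]
  apply core_separates (by norm_num)
  · simp only [add_sub_cancel_left, abs_one]
    norm_num
  · have := far_centre h
    simp only
    linarith

/-! ### bends, compatibility, connectedness -/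

theorem C_shared : ∀ u v : VV, G₁.Adj u v → G₂.Adj u v → C₁ u v = [] ∧ C₂ u v = [] := by
  decide +kernel

theorem C₁_len : ∀ u v : VV, (C₁ u v).length ≤ 2 := by decide +kernel

theorem C₂_len : ∀ u v : VV, (C₂ u v).length ≤ 2 := by decide +kernel

theorem D_simultaneous : Simultaneous D₁ D₂ := by
  refine ⟨rfl, fun u v h1 h2 => ?_⟩
  rw [D₁_curve, D₂_curve, (C_shared u v h1 h2).1, (C_shared u v h1 h2).2]

theorem D_bends : IsBendDrawing 0 2 D₁ D₂ where
  simultaneous := D_simultaneous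
  shared u v h1 h2 := by
    refine ⟨[], by simp, ?_⟩
    rw [D₁_curve, (C_shared u v h1 h2).1]
    rfl
  exclusive₁ u v _ _ := ⟨(C₁ u v).map toR, by rw [List.length_map]; exact C₁_len u v, rfl⟩
  exclusive₂ u v _ _ := ⟨(C₂ u v).map toR, by rw [List.length_map]; exact C₂_len u v, rfl⟩

theorem D_compatible : Compatible D₁ D₂ where
  cyclic v u w x hu hw hx := by
    have key : ∀ y, (G₁ ⊓ G₂).Adj v y →
        (D₁.restrict (inf_le_left : G₁ ⊓ G₂ ≤ G₁)).leavingAngle v y
          = (D₂.restrict (inf_le_right : G₁ ⊓ G₂ ≤ G₂)).leavingAngle v y := by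
      intro y hy
      have h := C_shared v y hy.1 hy.2
      show ((Complex.arg ⟨((((C₁ v y).map toR)).headD (toR (P y))).1 - (toR (P v)).1,
          ((((C₁ v y).map toR)).headD (toR (P y))).2 - (toR (P v)).2⟩ : ℝ) : Real.Angle)
        = ((Complex.arg ⟨((((C₂ v y).map toR)).headD (toR (P y))).1 - (toR (P v)).1,
          ((((C₂ v y).map toR)).headD (toR (P y))).2 - (toR (P v)).2⟩ : ℝ) : Real.Angle)
      rw [h.1, h.2]
    unfold PlaneDrawing.CyclicOrder
    rw [key u hu, key w hw, key x hx]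
  position r Z _ v w := by
    have key : (D₁.restrict (inf_le_left : G₁ ⊓ G₂ ≤ G₁)).closedCurve Z
        = (D₂.restrict (inf_le_right : G₁ ⊓ G₂ ≤ G₂)).closedCurve Z := by
      ext z
      constructor
      · rintro ⟨a, b, hab, hz⟩
        refine ⟨a, b, hab, ?_⟩
        have hadj := Z.adj_of_mem_edges hab
        have h := C_shared a b hadj.1 hadj.2
        have h1 : z ∈ D₁.curve a b := hz
        show z ∈ D₂.curve a b
        rwa [← D_simultaneous.2 a b hadj.1 hadj.2]
      · rintro ⟨a, b, hab, hz⟩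
        refine ⟨a, b, hab, ?_⟩
        have hadj := Z.adj_of_mem_edges hab
        have h1 : z ∈ D₂.curve a b := hz
        show z ∈ D₁.curve a b
        rwa [D_simultaneous.2 a b hadj.1 hadj.2]
    unfold PlaneDrawing.SameSide
    rw [key]
    exact Iff.rfl

theorem connected_aux {G : SimpleGraph VV} (hs : ∀ (j : Fin 3) (k : Fin 5), k ≠ 0 →
    G.Adj (j, 0) (j, k)) (h01 : ∃ k l, G.Adj (0, k) (1, l)) (h12 : ∃ k l, G.Adj (1, k) (2, l)) :
    G.Connected := by
  have star : ∀ (j : Fin 3) (k : Fin 5), G.Reachable (j, 0) (j, k) := by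
    intro j k
    by_cases hk : k = 0
    · rw [hk]
    · exact (hs j k hk).reachable
  obtain ⟨k, l, h01⟩ := h01
  obtain ⟨k', l', h12⟩ := h12
  have r01 : G.Reachable (0, 0) (1, 0) :=
    ((star 0 k).trans h01.reachable).trans (star 1 l).symm
  have r12 : G.Reachable (1, 0) (2, 0) :=
    ((star 1 k').trans h12.reachable).trans (star 2 l').symm
  have all : ∀ v : VV, G.Reachable (0, 0) v := by
    rintro ⟨j, k⟩
    fin_cases j
    · exact star 0 k
    · exact r01.trans (star 1 k)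
    · exact (r01.trans r12).trans (star 2 k)
  have : Nonempty VV := ⟨(0, 0)⟩
  exact ⟨fun u v => (all u).symm.trans (all v)⟩

theorem G₁_connected : G₁.Connected :=
  connected_aux star₁ ⟨1, 2, by decide⟩ ⟨1, 2, by decide⟩

theorem G₂_connected : G₂.Connected :=
  connected_aux star₂ ⟨4, 3, by decide⟩ ⟨4, 3, by decide⟩

end Pool.Agent.Helper97_Bends
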