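import Mathlib

/-!
# Planar geometry for the one-bend counterexample
-/

set_option autoImplicit false

open Set

namespace Pool.Agent.Helper97_Bends

/-- far away points -/
def Far (R : ℝ) (y : ℝ × ℝ) : Prop := R < y.1 ∨ R < y.2 ∨ y.1 < -R ∨ y.2 < -R

/-- `x` can be joined to arbitrarily far points in the complement of `Γ` -/
def Esc (Γ : Set (ℝ × ℝ)) (x : ℝ × ℝ) : Prop := ∀ R : ℝ, ∃ y, Far R y ∧ JoinedIn Γᶜ x y

theorem Esc.of_joined {Γ : Set (ℝ × ℝ)} {x y : ℝ × ℝ} (h : JoinedIn Γᶜ x y) (hy : Esc Γ y) :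
    Esc Γ x := fun R => by
  obtain ⟨z, hz, hyz⟩ := hy R
  exact ⟨z, hz, h.trans hyz⟩

theorem joinedIn_of_convex {S T : Set (ℝ × ℝ)} (hS : Convex ℝ S) (hST : S ⊆ T) {x y : ℝ × ℝ}
    (hx : x ∈ S) (hy : y ∈ S) : JoinedIn T x y :=
  JoinedIn.of_segment_subset ((hS.segment_subset hx hy).trans hST)

theorem far_joined {R : ℝ} {T : Set (ℝ × ℝ)} (hT : ∀ p, Far R p → p ∈ T) {x y : ℝ × ℝ}
    (hx : Far R x) (hy : Far R y) : JoinedIn T x y := by
  have cr : Convex ℝ {p : ℝ × ℝ | R < p.1} := convex_halfSpace_gt (f := Prod.fst) ⟨by simp, by simp⟩ R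
  have cu : Convex ℝ {p : ℝ × ℝ | R < p.2} := convex_halfSpace_gt (f := Prod.snd) ⟨by simp, by simp⟩ R
  have cl : Convex ℝ {p : ℝ × ℝ | p.1 < -R} :=
    convex_halfSpace_lt (f := Prod.fst) ⟨by simp, by simp⟩ (-R)
  have cd : Convex ℝ {p : ℝ × ℝ | p.2 < -R} :=
    convex_halfSpace_lt (f := Prod.snd) ⟨by simp, by simp⟩ (-R)
  have sr : {p : ℝ × ℝ | R < p.1} ⊆ T := fun p hp => hT p (Or.inl hp)
  have su : {p : ℝ × ℝ | R < p.2} ⊆ T := fun p hp => hT p (Or.inr (Or.inl hp))
  have sl : {p : ℝ × ℝ | p.1 < -R} ⊆ T := fun p hp => hT p (Or.inr (Or.inr (Or.inl hp)))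
  have sd : {p : ℝ × ℝ | p.2 < -R} ⊆ T := fun p hp => hT p (Or.inr (Or.inr (Or.inr hp)))
  -- everything is joined to the corner `(R+1, R+1)`
  have key : ∀ z, Far R z → JoinedIn T z (R + 1, R + 1) := by
    intro z hz
    rcases hz with h | h | h | h
    · exact joinedIn_of_convex cr sr h (by simp)
    · exact joinedIn_of_convex cu su h (by simp)
    · have h1 : JoinedIn T z (-R - 1, R + 1) := joinedIn_of_convex cl sl h (by simp)
      exact h1.trans (joinedIn_of_convex cu su (by simp) (by simp))
    · have h1 : JoinedIn T z (R + 1, -R - 1) := joinedIn_of_convex cd sd h (by simp)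
      exact h1.trans (joinedIn_of_convex cr sr (by simp) (by simp))
  exact (key x hx).trans (key y hy).symm

theorem joinedIn_of_esc {Γ : Set (ℝ × ℝ)} (hΓ : IsCompact Γ) {x y : ℝ × ℝ} (hx : Esc Γ x)
    (hy : Esc Γ y) : JoinedIn Γᶜ x y := by
  obtain ⟨R, hR⟩ := hΓ.isBounded.subset_closedBall (0 : ℝ × ℝ)
  have hT : ∀ p, Far R p → p ∈ Γᶜ := by
    intro p hp hpΓ
    have h1 := hR hpΓ
    rw [mem_closedBall_zero_iff, Prod.norm_def] at h1
    have h2 : |p.1| ≤ R := (le_max_left _ _).trans h1
    have h3 : |p.2| ≤ R := (le_max_right _ _).trans h1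
    rw [abs_le] at h2 h3
    rcases hp with h | h | h | h <;> linarith
  obtain ⟨x', hx', hxx⟩ := hx R
  obtain ⟨y', hy', hyy⟩ := hy R
  exact (hxx.trans (far_joined hT hx' hy')).trans hyy.symm

/-- Points that are extreme in some direction escape. -/
theorem esc_of_halfplane {Γ : Set (ℝ × ℝ)} {x : ℝ × ℝ} (hx : x ∉ Γ) {α β : ℝ}
    (h0 : α ≠ 0 ∨ β ≠ 0) (h : ∀ y ∈ Γ, α * x.1 + β * x.2 ≤ α * y.1 + β * y.2) : Esc Γ x := by
  intro R
  have hpos : 0 < α ^ 2 + β ^ 2 := by
    rcases h0 with h0 | h0
    · positivity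
    · positivity
  have hray : ∀ t : ℝ, 0 ≤ t → (x.1 - t * α, x.2 - t * β) ∈ Γᶜ := by
    intro t ht hmem
    rcases ht.eq_or_lt with rfl | ht
    · apply hx
      simpa using hmem
    · have := h _ hmem
      simp only at this
      nlinarith [mul_pos ht hpos]
  have hj : ∀ t : ℝ, 0 ≤ t → JoinedIn Γᶜ x (x.1 - t * α, x.2 - t * β) := by
    intro t ht
    apply JoinedIn.of_segment_subset
    rintro _ ⟨a, b, ha, hb, hab, rfl⟩
    have := hray (b * t) (mul_nonneg hb ht)
    have e : a • x + b • ((x.1 - t * α, x.2 - t * β) : ℝ × ℝ)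
        = (x.1 - b * t * α, x.2 - b * t * β) := by
      ext
      · simp only [Prod.fst_add, Prod.smul_fst, smul_eq_mul]
        linear_combination (x.1) * hab
      · simp only [Prod.snd_add, Prod.smul_snd, smul_eq_mul]
        linear_combination (x.2) * hab
    rw [e]
    exact this
  rcases h0 with h0 | h0
  · rcases lt_or_gt_of_ne h0 with h0 | h0
    · refine ⟨_, ?_, hj ((|R| + |x.1| + 1) / (-α)) (by
        apply div_nonneg (by positivity) (by linarith))⟩
      left
      have : (|R| + |x.1| + 1) / (-α) * α = -(|R| + |x.1| + 1) := by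
        field_simp
      simp only
      rw [this]
      have := le_abs_self R
      have := neg_abs_le x.1
      linarith
    · refine ⟨_, ?_, hj ((|R| + |x.1| + 1) / α) (by positivity)⟩
      right; right; left
      have : (|R| + |x.1| + 1) / α * α = (|R| + |x.1| + 1) := by
        field_simp
      simp only
      rw [this]
      have := le_abs_self R
      have := le_abs_self x.1
      linarith
  · rcases lt_or_gt_of_ne h0 with h0 | h0
    · refine ⟨_, ?_, hj ((|R| + |x.2| + 1) / (-β)) (by
        apply div_nonneg (by positivity) (by linarith))⟩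
      right; left
      have : (|R| + |x.2| + 1) / (-β) * β = -(|R| + |x.2| + 1) := by
        field_simp
      simp only
      rw [this]
      have := le_abs_self R
      have := neg_abs_le x.2
      linarith
    · refine ⟨_, ?_, hj ((|R| + |x.2| + 1) / β) (by positivity)⟩
      right; right; right
      have : (|R| + |x.2| + 1) / β * β = (|R| + |x.2| + 1) := by
        field_simp
      simp only
      rw [this]
      have := le_abs_self R
      have := le_abs_self x.2
      linarith

/-! ### The closed curve with a bend -/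

/-- the closed quadrangular curve `c, a, B, b` -/
def loop (c a B b : ℝ × ℝ) : Set (ℝ × ℝ) :=
  segment ℝ c a ∪ segment ℝ a B ∪ segment ℝ B b ∪ segment ℝ b c

theorem loop_symm (c a B b : ℝ × ℝ) : loop c a B b = loop c b B a := by
  unfold loop
  rw [segment_symm ℝ b c, segment_symm ℝ B b, segment_symm ℝ a B, segment_symm ℝ c a]
  ext x
  simp only [mem_union]
  tauto

theorem loop_compact (c a B b : ℝ × ℝ) : IsCompact (loop c a B b) := by
  have h : ∀ p q : ℝ × ℝ, IsCompact (segment ℝ p q) := by
    intro p q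
    rw [segment_eq_image]
    apply isCompact_Icc.image
    fun_prop
  exact (((h _ _).union (h _ _)).union (h _ _)).union (h _ _)

theorem loop_joined {c a B b z : ℝ × ℝ} (hz : z ∈ loop c a B b) :
    JoinedIn (loop c a B b) c z := by
  have s1 : segment ℝ c a ⊆ loop c a B b := fun x hx => Or.inl (Or.inl (Or.inl hx))
  have s2 : segment ℝ a B ⊆ loop c a B b := fun x hx => Or.inl (Or.inl (Or.inr hx))
  have s3 : segment ℝ B b ⊆ loop c a B b := fun x hx => Or.inl (Or.inr hx)
  have s4 : segment ℝ b c ⊆ loop c a B b := fun x hx => Or.inr hx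
  have sub : ∀ {p q r : ℝ × ℝ}, r ∈ segment ℝ p q → JoinedIn (segment ℝ p q) p r := by
    intro p q r hr
    exact joinedIn_of_convex (convex_segment p q) subset_rfl (left_mem_segment ℝ p q) hr
  rcases hz with ((hz | hz) | hz) | hz
  · exact (sub hz).mono s1
  · exact ((sub (right_mem_segment ℝ c a)).mono s1).trans ((sub hz).mono s2)
  · have h1 : JoinedIn (loop c a B b) b z := by
      rw [segment_symm] at hz
      exact (sub hz).mono (by rw [segment_symm]; exact s3)
    have h2 : JoinedIn (loop c a B b) b c := (sub (right_mem_segment ℝ b c)).mono s4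
    exact h2.symm.trans h1
  · have h2 : JoinedIn (loop c a B b) b c := (sub (right_mem_segment ℝ b c)).mono s4
    exact h2.symm.trans ((sub hz).mono s4)

theorem functional_segment {α β m : ℝ} {p q z : ℝ × ℝ} (hz : z ∈ segment ℝ p q)
    (hp : m ≤ α * p.1 + β * p.2) (hq : m ≤ α * q.1 + β * q.2) : m ≤ α * z.1 + β * z.2 := by
  obtain ⟨s, t, hs, ht, hst, rfl⟩ := hz
  simp only [Prod.fst_add, Prod.smul_fst, smul_eq_mul, Prod.snd_add, Prod.smul_snd]
  have h1 := mul_le_mul_of_nonneg_left hp hs
  have h2 := mul_le_mul_of_nonneg_left hq ht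
  have h3 : s * m + t * m = m := by rw [← add_mul, hst, one_mul]
  linarith

theorem functional_loop {α β m : ℝ} {c a B b z : ℝ × ℝ} (hz : z ∈ loop c a B b)
    (hc : m ≤ α * c.1 + β * c.2) (ha : m ≤ α * a.1 + β * a.2) (hB : m ≤ α * B.1 + β * B.2)
    (hb : m ≤ α * b.1 + β * b.2) : m ≤ α * z.1 + β * z.2 := by
  rcases hz with ((hz | hz) | hz) | hz
  · exact functional_segment hz hc ha
  · exact functional_segment hz ha hB
  · exact functional_segment hz hB hb
  · exact functional_segment hz hb hc

theorem vertex_lt {c a B b x : ℝ × ℝ} (hx : x ∉ loop c a B b) (hesc : ¬ Esc (loop c a B b) x)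
    {α β : ℝ} (h0 : α ≠ 0 ∨ β ≠ 0) :
    α * c.1 + β * c.2 < α * x.1 + β * x.2 ∨ α * a.1 + β * a.2 < α * x.1 + β * x.2 ∨
      α * B.1 + β * B.2 < α * x.1 + β * x.2 ∨ α * b.1 + β * b.2 < α * x.1 + β * x.2 := by
  by_contra hcon
  push Not at hcon
  obtain ⟨h1, h2, h3, h4⟩ := hcon
  exact hesc (esc_of_halfplane hx h0 fun y hy => functional_loop hy h1 h2 h3 h4)

/-- Two vectors on the same side of a line through the origin and parallel are on one ray. -/
theorem same_ray {α β : ℝ} {c a b : ℝ × ℝ} (ha : α * c.1 + β * c.2 < α * a.1 + β * a.2)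
    (hb : α * c.1 + β * c.2 < α * b.1 + β * b.2)
    (hdet : (a.1 - c.1) * (b.2 - c.2) - (a.2 - c.2) * (b.1 - c.1) = 0) :
    b ∈ segment ℝ c a ∨ a ∈ segment ℝ c b := by
  -- `b - c = l (a - c)` with `l = g(b-c)/g(a-c)`
  set ga := α * (a.1 - c.1) + β * (a.2 - c.2) with hga
  set gb := α * (b.1 - c.1) + β * (b.2 - c.2) with hgb
  have hga0 : 0 < ga := by rw [hga]; linarith
  have hgb0 : 0 < gb := by rw [hgb]; linarith
  have e1 : ga * (b.1 - c.1) = gb * (a.1 - c.1) := by
    rw [hga, hgb]; linear_combination (-β) * hdet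
  have e2 : ga * (b.2 - c.2) = gb * (a.2 - c.2) := by
    rw [hga, hgb]; linear_combination α * hdet
  rcases le_total gb ga with h | h
  · left
    refine ⟨1 - gb / ga, gb / ga, ?_, by positivity, by ring, ?_⟩
    · rw [sub_nonneg, div_le_one hga0]; exact h
    · ext
      · simp only [Prod.fst_add, Prod.smul_fst, smul_eq_mul]
        field_simp
        linarith
      · simp only [Prod.snd_add, Prod.smul_snd, smul_eq_mul]
        field_simp
        linarith
  · right
    refine ⟨1 - ga / gb, ga / gb, ?_, by positivity, by ring, ?_⟩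
    · rw [sub_nonneg, div_le_one hgb0]; exact h
    · ext
      · simp only [Prod.fst_add, Prod.smul_fst, smul_eq_mul]
        field_simp
        linarith
      · simp only [Prod.snd_add, Prod.smul_snd, smul_eq_mul]
        field_simp
        linarith

/-- If the direction of `d` at `c` is outside the sector of `a, b`, on the side of `a`, then `d`
escapes. -/
theorem esc_of_outside {c a b B d : ℝ × ℝ} {α β : ℝ}
    (ga : α * c.1 + β * c.2 < α * a.1 + β * a.2) (gb : α * c.1 + β * c.2 < α * b.1 + β * b.2)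
    (gB : α * c.1 + β * c.2 < α * B.1 + β * B.2)
    (hd : ∀ z ∈ segment ℝ c d, z ∈ loop c a B b → z = c)
    (hdet : (a.1 - c.1) * (b.2 - c.2) - (a.2 - c.2) * (b.1 - c.1) ≠ 0)
    (hout : ((a.1 - c.1) * (d.2 - c.2) - (a.2 - c.2) * (d.1 - c.1)) *
      ((a.1 - c.1) * (b.2 - c.2) - (a.2 - c.2) * (b.1 - c.1)) < 0) :
    Esc (loop c a B b) d := by
  set Δ := (a.1 - c.1) * (b.2 - c.2) - (a.2 - c.2) * (b.1 - c.1) with hΔ
  have h0 : α ≠ 0 ∨ β ≠ 0 := by
    by_contra hcon
    push Not at hcon
    rw [hcon.1, hcon.2] at ga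
    simp at ga
  have hdc : d ≠ c := by
    rintro rfl
    simp at hout
  -- a small neighbourhood of `c` misses the bent edge
  have hK : IsClosed (segment ℝ a B ∪ segment ℝ B b) := by
    have h : ∀ p q : ℝ × ℝ, IsCompact (segment ℝ p q) := by
      intro p q
      rw [segment_eq_image]
      apply isCompact_Icc.image
      fun_prop
    exact ((h _ _).union (h _ _)).isClosed
  have hcK : c ∉ segment ℝ a B ∪ segment ℝ B b := by
    rintro (h | h)
    · obtain ⟨s, t, hs, ht, hst, he⟩ := h
      have e1 := congrArg Prod.fst he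
      have e2 := congrArg Prod.snd he
      simp only [Prod.fst_add, Prod.smul_fst, smul_eq_mul, Prod.snd_add, Prod.smul_snd] at e1 e2
      have h3 : s * (α * c.1 + β * c.2) + t * (α * c.1 + β * c.2) = α * c.1 + β * c.2 := by
        rw [← add_mul, hst, one_mul]
      have h4 : s * (α * a.1 + β * a.2) + t * (α * B.1 + β * B.2) = α * c.1 + β * c.2 := by
        rw [← e1, ← e2]; ring
      rcases hs.eq_or_lt with rfl | hs
      · have ht1 : t = 1 := by linarith
        subst ht1
        linarith
      · have h5 := mul_lt_mul_of_pos_left ga hs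
        have h6 := mul_le_mul_of_nonneg_left gB.le ht
        linarith
    · obtain ⟨s, t, hs, ht, hst, he⟩ := h
      have e1 := congrArg Prod.fst he
      have e2 := congrArg Prod.snd he
      simp only [Prod.fst_add, Prod.smul_fst, smul_eq_mul, Prod.snd_add, Prod.smul_snd] at e1 e2
      have h3 : s * (α * c.1 + β * c.2) + t * (α * c.1 + β * c.2) = α * c.1 + β * c.2 := by
        rw [← add_mul, hst, one_mul]
      have h4 : s * (α * B.1 + β * B.2) + t * (α * b.1 + β * b.2) = α * c.1 + β * c.2 := by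
        rw [← e1, ← e2]; ring
      rcases hs.eq_or_lt with rfl | hs
      · have ht1 : t = 1 := by linarith
        subst ht1
        linarith
      · have h5 := mul_lt_mul_of_pos_left gB hs
        have h6 := mul_le_mul_of_nonneg_left gb.le ht
        linarith
  obtain ⟨ε, hε, hball⟩ := Metric.isOpen_iff.1 hK.isOpen_compl c hcK
  -- choose `t`
  set w : ℝ × ℝ := (a.1 - c.1 + (b.1 - c.1), a.2 - c.2 + (b.2 - c.2)) with hw
  set M := ‖d - c‖ + ‖w‖ + 1 with hM
  have hMpos : 0 < M := by positivity
  set t := min 1 (ε / (2 * M)) with ht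
  have htpos : 0 < t := lt_min one_pos (by positivity)
  have ht1 : t ≤ 1 := min_le_left _ _
  have htM : t * M < ε := by
    have : t * M ≤ ε / (2 * M) * M := mul_le_mul_of_nonneg_right (min_le_right _ _) hMpos.le
    have e : ε / (2 * M) * M = ε / 2 := by field_simp
    linarith
  set x0 : ℝ × ℝ := c + t • (d - c) with hx0
  set y0 : ℝ × ℝ := c - t • w with hy0
  have hx0ball : x0 ∈ Metric.ball c ε := by
    rw [Metric.mem_ball, dist_eq_norm, hx0, add_sub_cancel_left, norm_smul, Real.norm_eq_abs,
      abs_of_pos htpos]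
    have : t * ‖d - c‖ ≤ t * M := by
      apply mul_le_mul_of_nonneg_left _ htpos.le
      rw [hM]; have := norm_nonneg w; linarith
    linarith
  have hy0ball : y0 ∈ Metric.ball c ε := by
    rw [Metric.mem_ball, dist_eq_norm, hy0, sub_sub_cancel_left, norm_neg, norm_smul,
      Real.norm_eq_abs, abs_of_pos htpos]
    have : t * ‖w‖ ≤ t * M := by
      apply mul_le_mul_of_nonneg_left _ htpos.le
      rw [hM]; have := norm_nonneg (d - c); linarith
    linarith
  -- `d` to `x0`
  have j1 : JoinedIn (loop c a B b)ᶜ d x0 := by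
    apply JoinedIn.of_segment_subset
    rintro z ⟨s, u, hs, hu, hsu, rfl⟩ hz
    have hmem : s • d + u • x0 ∈ segment ℝ c d := by
      refine ⟨u * (1 - t), s + u * t, ?_, ?_, ?_, ?_⟩
      · exact mul_nonneg hu (by linarith)
      · positivity
      · linear_combination hsu
      · rw [hx0]
        have : s = 1 - u := by linarith
        subst this
        ext
        · simp only [Prod.fst_add, Prod.smul_fst, smul_eq_mul, Prod.fst_sub]; ring
        · simp only [Prod.snd_add, Prod.smul_snd, smul_eq_mul, Prod.snd_sub]; ring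
    have hzc := hd _ hmem hz
    have hst : (s + u * t) • (d - c) = 0 := by
      have e : s • d + u • x0 = c + (s + u * t) • (d - c) := by
        rw [hx0]
        have : s = 1 - u := by linarith
        subst this
        ext
        · simp only [Prod.fst_add, Prod.smul_fst, smul_eq_mul, Prod.fst_sub]; ring
        · simp only [Prod.snd_add, Prod.smul_snd, smul_eq_mul, Prod.snd_sub]; ring
      rw [e] at hzc
      simpa using hzc
    rcases smul_eq_zero.1 hst with h | h
    · have hs0 : s = 0 := by nlinarith [mul_nonneg hu htpos.le]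
      have hu1 : u = 1 := by linarith
      rw [hs0, hu1] at h
      linarith
    · exact hdc (sub_eq_zero.1 h)
  -- `x0` to `y0`
  have j2 : JoinedIn (loop c a B b)ᶜ x0 y0 := by
    apply JoinedIn.of_segment_subset
    intro z hz hzl
    have hzball : z ∈ Metric.ball c ε := (convex_ball c ε).segment_subset hx0ball hy0ball hz
    have hzK : z ∉ segment ℝ a B ∪ segment ℝ B b := hball hzball
    -- the second coordinate in the basis `a - c, b - c`
    have hneg : ((a.1 - c.1) * (z.2 - c.2) - (a.2 - c.2) * (z.1 - c.1)) * Δ < 0 := by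
      obtain ⟨s, u, hs, hu, hsu, rfl⟩ := hz
      have e : ((a.1 - c.1) * ((s • x0 + u • y0).2 - c.2)
          - (a.2 - c.2) * ((s • x0 + u • y0).1 - c.1)) * Δ
          = (s * t) * (((a.1 - c.1) * (d.2 - c.2) - (a.2 - c.2) * (d.1 - c.1)) * Δ)
            - (u * t) * (Δ * Δ) := by
        have : s = 1 - u := by linarith
        subst this
        simp only [hx0, hy0, hw, hΔ, Prod.fst_add, Prod.smul_fst, smul_eq_mul, Prod.snd_add,
          Prod.smul_snd, Prod.fst_sub, Prod.snd_sub]
        ring
      rw [e]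
      have hΔ2 : 0 < Δ * Δ := mul_self_pos.2 hdet
      rcases hs.eq_or_lt with rfl | hs
      · have hu1 : u = 1 := by linarith
        subst hu1
        nlinarith [mul_pos htpos hΔ2]
      · have h1 : (s * t) * (((a.1 - c.1) * (d.2 - c.2) - (a.2 - c.2) * (d.1 - c.1)) * Δ) < 0 :=
          mul_neg_of_pos_of_neg (mul_pos hs htpos) hout
        have h2 : 0 ≤ (u * t) * (Δ * Δ) := by positivity
        linarith
    rcases hzl with ((hz | hz) | hz) | hz
    · obtain ⟨s, u, hs, hu, hsu, rfl⟩ := hz
      have e : ((a.1 - c.1) * ((s • c + u • a).2 - c.2)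
          - (a.2 - c.2) * ((s • c + u • a).1 - c.1)) = 0 := by
        have : s = 1 - u := by linarith
        subst this
        simp only [Prod.fst_add, Prod.smul_fst, smul_eq_mul, Prod.snd_add, Prod.smul_snd]
        ring
      rw [e, zero_mul] at hneg
      exact lt_irrefl _ hneg
    · exact hzK (Or.inl hz)
    · exact hzK (Or.inr hz)
    · obtain ⟨s, u, hs, hu, hsu, rfl⟩ := hz
      have e : ((a.1 - c.1) * ((s • b + u • c).2 - c.2)
          - (a.2 - c.2) * ((s • b + u • c).1 - c.1)) * Δ = s * (Δ * Δ) := by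
        have : u = 1 - s := by linarith
        subst this
        simp only [hΔ, Prod.fst_add, Prod.smul_fst, smul_eq_mul, Prod.snd_add, Prod.smul_snd]
        ring
      rw [e] at hneg
      have : 0 ≤ s * (Δ * Δ) := mul_nonneg hs (mul_self_nonneg Δ)
      linarith
  -- `y0` escapes
  have hy0lt : α * y0.1 + β * y0.2 < α * c.1 + β * c.2 := by
    have e : α * y0.1 + β * y0.2 = α * c.1 + β * c.2 - t * ((α * a.1 + β * a.2 - (α * c.1 + β * c.2))
        + (α * b.1 + β * b.2 - (α * c.1 + β * c.2))) := by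
      simp only [hy0, hw, Prod.fst_sub, Prod.snd_sub, Prod.smul_fst, Prod.smul_snd, smul_eq_mul]
      ring
    rw [e]
    have : 0 < t * ((α * a.1 + β * a.2 - (α * c.1 + β * c.2))
        + (α * b.1 + β * b.2 - (α * c.1 + β * c.2))) := mul_pos htpos (by linarith)
    linarith
  have hge : ∀ y ∈ loop c a B b, α * c.1 + β * c.2 ≤ α * y.1 + β * y.2 := fun y hy =>
    functional_loop hy le_rfl ga.le gB.le gb.le
  have hy0n : y0 ∉ loop c a B b := fun h => by
    have := hge _ h
    linarith
  have he : Esc (loop c a B b) y0 :=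
    esc_of_halfplane hy0n h0 fun y hy => hy0lt.le.trans (hge y hy)
  exact Esc.of_joined (j1.trans j2) he

end Pool.Agent.Helper97_Bends
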