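import Pool.Agent.Helper97_Bends.Enclose
import Pool.Agent.Helper97_Bends.Defs

/-!
# The two graphs, and the proof that no one-bend drawing has the prescribed relative positions
-/

set_option autoImplicit false

open Set

namespace Pool.Agent.Helper97_Bends

/-! ### Polylines -/

theorem polyline_append (l₁ : List (ℝ × ℝ)) (p : ℝ × ℝ) (l₂ : List (ℝ × ℝ)) :
    polyline (l₁ ++ p :: l₂) = polyline (l₁ ++ [p]) ∪ polyline (p :: l₂) := by
  induction l₁ with
  | nil =>
    simp only [List.nil_append]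
    cases l₂ with
    | nil => simp
    | cons q l =>
      show _ = ({p} : Set (ℝ × ℝ)) ∪ (segment ℝ p q ∪ polyline (q :: l))
      rw [← union_assoc]
      have : ({p} : Set (ℝ × ℝ)) ∪ segment ℝ p q = segment ℝ p q :=
        union_eq_right.2 (singleton_subset_iff.2 (left_mem_segment ℝ p q))
      rw [this]
      rfl
  | cons q l ih =>
    cases l with
    | nil =>
      show segment ℝ q p ∪ polyline (p :: l₂) = (segment ℝ q p ∪ {p}) ∪ polyline (p :: l₂)
      have : segment ℝ q p ∪ {p} = segment ℝ q p :=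
        union_eq_left.2 (singleton_subset_iff.2 (right_mem_segment ℝ q p))
      rw [this]
    | cons r l =>
      show segment ℝ q r ∪ polyline ((r :: l) ++ p :: l₂)
        = (segment ℝ q r ∪ polyline ((r :: l) ++ [p])) ∪ polyline (p :: l₂)
      rw [ih, union_assoc]

theorem polyline_reverse (l : List (ℝ × ℝ)) : polyline l.reverse = polyline l := by
  induction l with
  | nil => rfl
  | cons p l ih =>
    cases l with
    | nil => rfl
    | cons q l =>
      show _ = segment ℝ p q ∪ polyline (q :: l)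
      rw [← ih]
      simp only [List.reverse_cons, List.append_assoc, List.cons_append, List.nil_append]
      rw [polyline_append]
      show polyline (l.reverse ++ [q]) ∪ (segment ℝ q p ∪ {p}) = _
      have : segment ℝ q p ∪ {p} = segment ℝ q p :=
        union_eq_left.2 (singleton_subset_iff.2 (right_mem_segment ℝ q p))
      rw [this, segment_symm, union_comm]

theorem polyline_two (p q : ℝ × ℝ) : polyline [p, q] = segment ℝ p q := by
  show segment ℝ p q ∪ {q} = _
  exact union_eq_left.2 (singleton_subset_iff.2 (right_mem_segment ℝ p q))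

theorem polyline_three (p q r : ℝ × ℝ) : polyline [p, q, r] = segment ℝ p q ∪ segment ℝ q r := by
  show segment ℝ p q ∪ polyline [q, r] = _
  rw [polyline_two]

namespace PlaneDrawing

variable {V : Type} {G : SimpleGraph V} (D : PlaneDrawing G)

theorem curve_symm {u v : V} (h : G.Adj u v) : D.curve v u = D.curve u v := by
  unfold curve
  rw [D.corners_symm u v h]
  have : D.pos v :: ((D.corners u v).reverse ++ [D.pos u])
      = (D.pos u :: (D.corners u v ++ [D.pos v])).reverse := by simp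
  rw [this, polyline_reverse]

theorem meet {u v x y : V} (h1 : G.Adj u v) (h2 : G.Adj x y) (hne : s(u, v) ≠ s(x, y))
    {z : ℝ × ℝ} (hz1 : z ∈ D.curve u v) (hz2 : z ∈ D.curve x y) :
    ∃ w, (w = u ∨ w = v) ∧ (w = x ∨ w = y) ∧ D.pos w = z := by
  obtain ⟨w, ⟨hw1, hw2⟩, hw⟩ := D.no_cross u v x y h1 h2 hne ⟨hz1, hz2⟩
  exact ⟨w, by simpa using hw1, by simpa using hw2, hw⟩

theorem straight {u v : V} (h : D.HasAtMostBends u v 0) :
    D.curve u v = segment ℝ (D.pos u) (D.pos v) := by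
  obtain ⟨l, hl, he⟩ := h
  have : l = [] := List.eq_nil_of_length_eq_zero (by omega)
  subst this
  rw [he, List.nil_append, polyline_two]

theorem one_bend {u v : V} (h : D.HasAtMostBends u v 1) :
    ∃ B, D.curve u v = segment ℝ (D.pos u) B ∪ segment ℝ B (D.pos v) := by
  obtain ⟨l, hl, he⟩ := h
  match l, hl, he with
  | [], _, he =>
    refine ⟨D.pos u, ?_⟩
    rw [he, List.nil_append, polyline_two, segment_same]
    exact (union_eq_right.2 (singleton_subset_iff.2 (left_mem_segment ℝ _ _))).symm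
  | [B], _, he =>
    refine ⟨B, ?_⟩
    rw [he]
    exact polyline_three _ _ _
  | _ :: _ :: _, hl, _ =>
    simp at hl

end PlaneDrawing

/-! ### Two disjoint closed curves cannot both be reversed -/

theorem exists_lt_of_not_esc {L : Set (ℝ × ℝ)} {z : ℝ × ℝ} (hz : z ∉ L) (h : ¬ Esc L z) :
    ∃ y ∈ L, y.1 < z.1 := by
  by_contra hcon
  push Not at hcon
  apply h
  refine esc_of_halfplane hz (α := 1) (β := 0) (Or.inl one_ne_zero) fun y hy => ?_
  have := hcon y hy
  linarith

theorem not_both {L L' : Set (ℝ × ℝ)} (hL : IsCompact L) (hL' : IsCompact L')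
    (disj : ∀ z ∈ L, z ∉ L') {c c' d d' : ℝ × ℝ} (hc' : c' ∈ L')
    (conn : ∀ z ∈ L, JoinedIn L c z) (conn' : ∀ z ∈ L', JoinedIn L' c' z)
    (s : ¬ JoinedIn Lᶜ d c') (s' : ¬ JoinedIn L'ᶜ d' c) : ¬ (Esc L d ∧ Esc L' d') := by
  rintro ⟨h1, h2⟩
  have n1 : ¬ Esc L c' := fun h => s (joinedIn_of_esc hL h1 h)
  have n2 : ¬ Esc L' c := fun h => s' (joinedIn_of_esc hL' h2 h)
  have sub1 : L' ⊆ Lᶜ := fun z hz hz' => disj z hz' hz
  have sub2 : L ⊆ L'ᶜ := fun z hz hz' => disj z hz hz'
  have m1 : ∀ z ∈ L', ¬ Esc L z := fun z hz h => n1 (Esc.of_joined ((conn' z hz).mono sub1) h)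
  have m2 : ∀ z ∈ L, ¬ Esc L' z := fun z hz h => n2 (Esc.of_joined ((conn z hz).mono sub2) h)
  obtain ⟨z, hz, hmin⟩ := hL'.exists_isMinOn ⟨c', hc'⟩ (f := fun p : ℝ × ℝ => p.1)
    continuous_fst.continuousOn
  obtain ⟨y, hy, hyz⟩ := exists_lt_of_not_esc (fun h => disj z h hz) (m1 z hz)
  obtain ⟨x, hx, hxy⟩ := exists_lt_of_not_esc (disj y hy) (m2 y hy)
  have := hmin hx
  simp only [mem_ofPred_eq] at this
  linarith

/-! ### The graphs -/

/-- vertex set: three copies of a star with centre `0` and leaves `1, 2, 3, 4` -/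
abbrev VV := Fin 3 × Fin 5

/-- relation of the first graph: the stars, the edges `12` inside the copies, and the edges from `1`
to the vertex `2` of the next copy -/
def r₁ (x y : VV) : Prop :=
  (x.1 = y.1 ∧ x.2 = 0) ∨ (x.1 = y.1 ∧ x.2 = 1 ∧ y.2 = 2) ∨
    (x.1.val + 1 = y.1.val ∧ x.2 = 1 ∧ y.2 = 2)

/-- relation of the second graph: the stars, the edges `34` inside the copies, and the edges from
`4` to the vertex `3` of the next copy -/
def r₂ (x y : VV) : Prop :=
  (x.1 = y.1 ∧ x.2 = 0) ∨ (x.1 = y.1 ∧ x.2 = 3 ∧ y.2 = 4) ∨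
    (x.1.val + 1 = y.1.val ∧ x.2 = 4 ∧ y.2 = 3)

instance : DecidableRel r₁ := fun x y => by unfold r₁; infer_instance
instance : DecidableRel r₂ := fun x y => by unfold r₂; infer_instance

/-- the first graph -/
def G₁ : SimpleGraph VV := SimpleGraph.fromRel r₁
/-- the second graph -/
def G₂ : SimpleGraph VV := SimpleGraph.fromRel r₂

instance : DecidableRel G₁.Adj := fun x y => by
  unfold G₁; rw [SimpleGraph.fromRel_adj]; infer_instance
instance : DecidableRel G₂.Adj := fun x y => by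
  unfold G₂; rw [SimpleGraph.fromRel_adj]; infer_instance

theorem star₁ (j : Fin 3) (k : Fin 5) (hk : k ≠ 0) : G₁.Adj (j, 0) (j, k) := by
  rw [G₁, SimpleGraph.fromRel_adj]
  refine ⟨fun h => hk (congrArg Prod.snd h).symm, Or.inl (Or.inl ⟨rfl, rfl⟩)⟩

theorem star₂ (j : Fin 3) (k : Fin 5) (hk : k ≠ 0) : G₂.Adj (j, 0) (j, k) := by
  rw [G₂, SimpleGraph.fromRel_adj]
  refine ⟨fun h => hk (congrArg Prod.snd h).symm, Or.inl (Or.inl ⟨rfl, rfl⟩)⟩

theorem excl₁ (j : Fin 3) : G₁.Adj (j, 1) (j, 2) := by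
  rw [G₁, SimpleGraph.fromRel_adj]
  exact ⟨by simp, Or.inl (Or.inr (Or.inl ⟨rfl, rfl, rfl⟩))⟩

theorem excl₂ (j : Fin 3) : G₂.Adj (j, 3) (j, 4) := by
  rw [G₂, SimpleGraph.fromRel_adj]
  exact ⟨by simp, Or.inl (Or.inr (Or.inl ⟨rfl, rfl, rfl⟩))⟩

theorem excl₁' : ∀ j : Fin 3, ¬ G₂.Adj (j, 1) (j, 2) := by decide

theorem excl₂' : ∀ j : Fin 3, ¬ G₁.Adj (j, 3) (j, 4) := by decide

/-- the cycle `0, 1, 2` of the copy `j` in the first graph -/
def Z₁ (j : Fin 3) : G₁.Walk (j, 0) (j, 0) :=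
  .cons (star₁ j 1 (by decide)) (.cons (excl₁ j) (.cons (star₁ j 2 (by decide)).symm .nil))

/-- the cycle `0, 3, 4` of the copy `j` in the second graph -/
def Z₂ (j : Fin 3) : G₂.Walk (j, 0) (j, 0) :=
  .cons (star₂ j 3 (by decide)) (.cons (excl₂ j) (.cons (star₂ j 4 (by decide)).symm .nil))

theorem Z₁_cycle (j : Fin 3) : (Z₁ j).IsCycle := by
  rw [Z₁, SimpleGraph.Walk.cons_isCycle_iff]
  constructor
  · simp [SimpleGraph.Walk.isPath_def]
  · simp

theorem Z₂_cycle (j : Fin 3) : (Z₂ j).IsCycle := by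
  rw [Z₂, SimpleGraph.Walk.cons_isCycle_iff]
  constructor
  · simp [SimpleGraph.Walk.isPath_def]
  · simp

/-- closed curve of a triangle -/
theorem closedCurve_triangle {V : Type} {G : SimpleGraph V} (D : PlaneDrawing G) {c a b : V}
    (h1 : G.Adj c a) (h2 : G.Adj a b) (h3 : G.Adj b c) {B : ℝ × ℝ}
    (e1 : D.curve c a = segment ℝ (D.pos c) (D.pos a))
    (e2 : D.curve a b = segment ℝ (D.pos a) B ∪ segment ℝ B (D.pos b))
    (e3 : D.curve c b = segment ℝ (D.pos c) (D.pos b)) :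
    D.closedCurve (.cons h1 (.cons h2 (.cons h3 .nil)))
      = loop (D.pos c) (D.pos a) B (D.pos b) := by
  have e1' : D.curve a c = segment ℝ (D.pos c) (D.pos a) := by rw [D.curve_symm h1, e1]
  have e2' : D.curve b a = segment ℝ (D.pos a) B ∪ segment ℝ B (D.pos b) := by
    rw [D.curve_symm h2, e2]
  have e3' : D.curve b c = segment ℝ (D.pos b) (D.pos c) := by
    rw [← D.curve_symm h3, e3, segment_symm]
  rw [segment_symm] at e3
  ext z
  simp only [PlaneDrawing.closedCurve, SimpleGraph.Walk.edges_cons, SimpleGraph.Walk.edges_nil,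
    List.mem_cons, List.not_mem_nil, or_false, mem_ofPred_eq, Sym2.eq_iff, loop]
  constructor
  · rintro ⟨u, v, (h | h | h), hz⟩
    · left; left; left
      rcases h with ⟨rfl, rfl⟩ | ⟨rfl, rfl⟩
      · rwa [e1] at hz
      · rwa [e1'] at hz
    · have hz' : z ∈ segment ℝ (D.pos a) B ∪ segment ℝ B (D.pos b) := by
        rcases h with ⟨rfl, rfl⟩ | ⟨rfl, rfl⟩
        · rwa [e2] at hz
        · rwa [e2'] at hz
      rcases hz' with h | h
      · left; left; right; exact h
      · left; right; exact h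
    · right
      rcases h with ⟨rfl, rfl⟩ | ⟨rfl, rfl⟩
      · rwa [e3'] at hz
      · rwa [e3] at hz
  · rintro (((hz | hz) | hz) | hz)
    · exact ⟨c, a, Or.inl (Or.inl ⟨rfl, rfl⟩), by rwa [e1]⟩
    · exact ⟨a, b, Or.inr (Or.inl (Or.inl ⟨rfl, rfl⟩)), by rw [e2]; exact Or.inl hz⟩
    · exact ⟨a, b, Or.inr (Or.inl (Or.inl ⟨rfl, rfl⟩)), by rw [e2]; exact Or.inr hz⟩
    · exact ⟨b, c, Or.inr (Or.inr (Or.inl ⟨rfl, rfl⟩)), by rwa [e3']⟩

end Pool.Agent.Helper97_Bends
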