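import Pool.Agent.Helper97_Bends.Main

/-!
# No one-bend drawing has the prescribed relative positions
-/

set_option autoImplicit false

open Set

namespace Pool.Agent.Helper97_Bends

namespace PlaneDrawing

variable {V : Type} {G : SimpleGraph V} (D : PlaneDrawing G)

theorem exists_edge_of_mem {r : V} {Z : G.Walk r r} {z : ℝ × ℝ} (hz : z ∈ D.closedCurve Z) :
    ∃ u v, G.Adj u v ∧ u ∈ Z.support ∧ v ∈ Z.support ∧ z ∈ D.curve u v := by
  obtain ⟨u, v, huv, hz⟩ := hz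
  exact ⟨u, v, Z.adj_of_mem_edges huv, Z.fst_mem_support_of_mem_edges huv,
    Z.snd_mem_support_of_mem_edges huv, hz⟩

theorem disjoint_closedCurve {r r' : V} {Z : G.Walk r r} {Z' : G.Walk r' r'}
    (h : ∀ x ∈ Z.support, x ∉ Z'.support) : ∀ z ∈ D.closedCurve Z, z ∉ D.closedCurve Z' := by
  intro z hz hz'
  obtain ⟨u, v, huv, hu, hv, hzu⟩ := D.exists_edge_of_mem hz
  obtain ⟨x, y, hxy, hx, hy, hzx⟩ := D.exists_edge_of_mem hz'
  have hne : s(u, v) ≠ s(x, y) := by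
    intro he
    rcases Sym2.eq_iff.1 he with ⟨rfl, rfl⟩ | ⟨rfl, rfl⟩
    · exact h u hu hx
    · exact h u hu hy
  obtain ⟨w, hw1, hw2, -⟩ := D.meet huv hxy hne hzu hzx
  have h1 : w ∈ Z.support := by rcases hw1 with rfl | rfl <;> assumption
  have h2 : w ∈ Z'.support := by rcases hw2 with rfl | rfl <;> assumption
  exact h w h1 h2

theorem meet_closedCurve {r x y : V} {Z : G.Walk r r} (hxy : G.Adj x y) (hy : y ∉ Z.support)
    {z : ℝ × ℝ} (hz : z ∈ D.curve x y) (hz' : z ∈ D.closedCurve Z) : z = D.pos x := by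
  obtain ⟨u, v, huv, hu, hv, hzu⟩ := D.exists_edge_of_mem hz'
  have hne : s(x, y) ≠ s(u, v) := by
    intro he
    rcases Sym2.eq_iff.1 he with ⟨rfl, rfl⟩ | ⟨rfl, rfl⟩
    · exact hy hv
    · exact hy hu
  obtain ⟨w, hw1, hw2, rfl⟩ := D.meet hxy huv hne hz hzu
  rcases hw1 with rfl | rfl
  · rfl
  · exfalso
    rcases hw2 with rfl | rfl
    · exact hy hu
    · exact hy hv

end PlaneDrawing

theorem Z₁_support (j : Fin 3) : (Z₁ j).support = [(j, 0), (j, 1), (j, 2), (j, 0)] := by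
  simp [Z₁]

theorem Z₂_support (j : Fin 3) : (Z₂ j).support = [(j, 0), (j, 3), (j, 4), (j, 0)] := by
  simp [Z₂]

theorem Z₁_disj {j k : Fin 3} (h : j ≠ k) : ∀ x ∈ (Z₁ j).support, x ∉ (Z₁ k).support := by
  intro x hx hx'
  rw [Z₁_support] at hx hx'
  simp only [List.mem_cons, List.not_mem_nil, or_false] at hx hx'
  apply h
  rcases hx with rfl | rfl | rfl | rfl <;> rcases hx' with hx' | hx' | hx' | hx' <;>
    exact congrArg Prod.fst hx'

theorem Z₂_disj {j k : Fin 3} (h : j ≠ k) : ∀ x ∈ (Z₂ j).support, x ∉ (Z₂ k).support := by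
  intro x hx hx'
  rw [Z₂_support] at hx hx'
  simp only [List.mem_cons, List.not_mem_nil, or_false] at hx hx'
  apply h
  rcases hx with rfl | rfl | rfl | rfl <;> rcases hx' with hx' | hx' | hx' | hx' <;>
    exact congrArg Prod.fst hx'

theorem pigeon {P Q : Fin 3 → Prop} (hP : ∀ j k, j ≠ k → ¬ (P j ∧ P k))
    (hQ : ∀ j k, j ≠ k → ¬ (Q j ∧ Q k)) : ∃ j, ¬ P j ∧ ¬ Q j := by
  by_contra hcon
  push Not at hcon
  have h0 := hcon 0
  have h1 := hcon 1
  have h2 := hcon 2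
  have p01 := hP 0 1 (by decide)
  have p02 := hP 0 2 (by decide)
  have p12 := hP 1 2 (by decide)
  have q01 := hQ 0 1 (by decide)
  have q02 := hQ 0 2 (by decide)
  have q12 := hQ 1 2 (by decide)
  tauto

/-- No simultaneous drawing with straight shared edges and at most one bend on each exclusive edge
has the prescribed relative positions. -/
theorem no_one_bend (D₁ : PlaneDrawing G₁) (D₂ : PlaneDrawing G₂) (hb : IsBendDrawing 0 1 D₁ D₂)
    (s1 : ∀ j, D₁.SameSide (Z₁ j) (j, 3) (j, 4))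
    (n1 : ∀ j k, j ≠ k → ¬ D₁.SameSide (Z₁ j) (j, 3) (k, 0))
    (s2 : ∀ j, D₂.SameSide (Z₂ j) (j, 1) (j, 2))
    (n2 : ∀ j k, j ≠ k → ¬ D₂.SameSide (Z₂ j) (j, 1) (k, 0)) : False := by
  have hpos : D₁.pos = D₂.pos := hb.simultaneous.1
  have str1 : ∀ (j : Fin 3) (k : Fin 5), k ≠ 0 →
      D₁.curve (j, 0) (j, k) = segment ℝ (D₁.pos (j, 0)) (D₁.pos (j, k)) := fun j k hk =>
    D₁.straight (hb.shared _ _ (star₁ j k hk) (star₂ j k hk))
  have str2 : ∀ (j : Fin 3) (k : Fin 5), k ≠ 0 →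
      D₂.curve (j, 0) (j, k) = segment ℝ (D₂.pos (j, 0)) (D₂.pos (j, k)) := fun j k hk => by
    rw [← hb.simultaneous.2 _ _ (star₁ j k hk) (star₂ j k hk), str1 j k hk, hpos]
  have ex1 : ∀ j : Fin 3, ∃ B, D₁.curve (j, 1) (j, 2)
      = segment ℝ (D₁.pos (j, 1)) B ∪ segment ℝ B (D₁.pos (j, 2)) := fun j =>
    D₁.one_bend (hb.exclusive₁ _ _ (excl₁ j) (excl₁' j))
  have ex2 : ∀ j : Fin 3, ∃ B, D₂.curve (j, 3) (j, 4)
      = segment ℝ (D₂.pos (j, 3)) B ∪ segment ℝ B (D₂.pos (j, 4)) := fun j =>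
    D₂.one_bend (hb.exclusive₂ _ _ (excl₂ j) (excl₂' j))
  choose B hB using ex1
  choose B' hB' using ex2
  have L1 : ∀ j, D₁.closedCurve (Z₁ j)
      = loop (D₁.pos (j, 0)) (D₁.pos (j, 1)) (B j) (D₁.pos (j, 2)) := fun j =>
    closedCurve_triangle D₁ _ _ _ (str1 j 1 (by decide)) (hB j) (str1 j 2 (by decide))
  have L2 : ∀ j, D₂.closedCurve (Z₂ j)
      = loop (D₂.pos (j, 0)) (D₂.pos (j, 3)) (B' j) (D₂.pos (j, 4)) := fun j =>
    closedCurve_triangle D₂ _ _ _ (str2 j 3 (by decide)) (hB' j) (str2 j 4 (by decide))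
  have P1 : ∀ j k, j ≠ k → ¬ (Esc (D₁.closedCurve (Z₁ j)) (D₁.pos (j, 3)) ∧
      Esc (D₁.closedCurve (Z₁ k)) (D₁.pos (k, 3))) := by
    intro j k hjk
    refine not_both (by rw [L1]; exact loop_compact _ _ _ _) (by rw [L1]; exact loop_compact _ _ _ _)
      (D₁.disjoint_closedCurve (Z₁_disj hjk)) (c := D₁.pos (j, 0)) (c' := D₁.pos (k, 0))
      ?_ ?_ ?_ (n1 j k hjk) (n1 k j hjk.symm)
    · rw [L1]; exact Or.inl (Or.inl (Or.inl (left_mem_segment ℝ _ _)))
    · rw [L1]; exact fun z hz => loop_joined hz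
    · rw [L1]; exact fun z hz => loop_joined hz
  have P2 : ∀ j k, j ≠ k → ¬ (Esc (D₂.closedCurve (Z₂ j)) (D₂.pos (j, 1)) ∧
      Esc (D₂.closedCurve (Z₂ k)) (D₂.pos (k, 1))) := by
    intro j k hjk
    refine not_both (by rw [L2]; exact loop_compact _ _ _ _) (by rw [L2]; exact loop_compact _ _ _ _)
      (D₂.disjoint_closedCurve (Z₂_disj hjk)) (c := D₂.pos (j, 0)) (c' := D₂.pos (k, 0))
      ?_ ?_ ?_ (n2 j k hjk) (n2 k j hjk.symm)
    · rw [L2]; exact Or.inl (Or.inl (Or.inl (left_mem_segment ℝ _ _)))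
    · rw [L2]; exact fun z hz => loop_joined hz
    · rw [L2]; exact fun z hz => loop_joined hz
  obtain ⟨j, hd, ha⟩ := pigeon P1 P2
  have he : ¬ Esc (D₁.closedCurve (Z₁ j)) (D₁.pos (j, 4)) := fun h =>
    hd (Esc.of_joined (s1 j) h)
  have hb' : ¬ Esc (D₂.closedCurve (Z₂ j)) (D₂.pos (j, 2)) := fun h =>
    ha (Esc.of_joined (s2 j) h)
  -- the star segments meet the loops only in the centre
  have m1 : ∀ k : Fin 5, k ≠ 0 → (j, k) ∉ (Z₁ j).support → ∀ z ∈
      segment ℝ (D₁.pos (j, 0)) (D₁.pos (j, k)), z ∈ D₁.closedCurve (Z₁ j) → z = D₁.pos (j, 0) := by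
    intro k hk hks z hz hz'
    rw [← str1 j k hk] at hz
    exact D₁.meet_closedCurve (star₁ j k hk) hks hz hz'
  have m2 : ∀ k : Fin 5, k ≠ 0 → (j, k) ∉ (Z₂ j).support → ∀ z ∈
      segment ℝ (D₂.pos (j, 0)) (D₂.pos (j, k)), z ∈ D₂.closedCurve (Z₂ j) → z = D₂.pos (j, 0) := by
    intro k hk hks z hz hz'
    rw [← str2 j k hk] at hz
    exact D₂.meet_closedCurve (star₂ j k hk) hks hz hz'
  have off : ∀ k l : Fin 5, k ≠ 0 → l ≠ 0 → l ≠ k →
      D₁.pos (j, l) ∉ segment ℝ (D₁.pos (j, 0)) (D₁.pos (j, k)) := by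
    intro k l hk hl hlk
    rw [← str1 j k hk]
    exact D₁.vertex_off _ _ _ (star₁ j k hk) (fun h => hl (congrArg Prod.snd h))
      (fun h => hlk (congrArg Prod.snd h))
  have hBc : B j ≠ D₁.pos (j, 0) := by
    intro h
    have h1 : D₁.pos (j, 0) ∉ D₁.curve (j, 1) (j, 2) := D₁.vertex_off _ _ _ (excl₁ j)
      (fun h => absurd (congrArg Prod.snd h) (show ¬ ((0 : Fin 5) = 1) by decide))
      (fun h => absurd (congrArg Prod.snd h) (show ¬ ((0 : Fin 5) = 2) by decide))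
    apply h1
    rw [hB j, ← h]
    exact Or.inl (right_mem_segment ℝ _ _)
  have pne : ∀ k : Fin 5, k ≠ 0 → D₁.pos (j, k) ≠ D₁.pos (j, 0) := fun k hk h =>
    hk (congrArg Prod.snd (D₁.pos_injective h))
  rw [L1] at hd he m1
  rw [L2] at ha hb' m2
  rw [← hpos] at ha hb' m2
  have n3 : (j, (3 : Fin 5)) ∉ (Z₁ j).support := by rw [Z₁_support]; simp
  have n4 : (j, (4 : Fin 5)) ∉ (Z₁ j).support := by rw [Z₁_support]; simp
  have n1' : (j, (1 : Fin 5)) ∉ (Z₂ j).support := by rw [Z₂_support]; simp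
  have n2' : (j, (2 : Fin 5)) ∉ (Z₂ j).support := by rw [Z₂_support]; simp
  exact no_mutual_enclosure hd he ha hb' (m1 3 (by decide) n3) (m1 4 (by decide) n4)
    (m2 1 (by decide) n1') (m2 2 (by decide) n2')
    (pne 3 (by decide)) (pne 4 (by decide)) (pne 1 (by decide)) (pne 2 (by decide)) hBc
    (off 1 2 (by decide) (by decide) (by decide)) (off 2 1 (by decide) (by decide) (by decide))
    (off 3 4 (by decide) (by decide) (by decide)) (off 4 3 (by decide) (by decide) (by decide))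
    (off 1 3 (by decide) (by decide) (by decide)) (off 3 1 (by decide) (by decide) (by decide))
    (off 1 4 (by decide) (by decide) (by decide)) (off 4 1 (by decide) (by decide) (by decide))

end Pool.Agent.Helper97_Bends
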