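import Pool.Agent.Helper97_Bends.Check

/-!
# The reference drawings
-/

set_option autoImplicit false

open Set

namespace Pool.Agent.Helper97_Bends

/-- positions relative to the centre of the copy -/
def off : Fin 5 → ℤ × ℤ
  | 0 => (0, 0)
  | 1 => (1, 1)
  | 2 => (-1, 1)
  | 3 => (-1, -1)
  | 4 => (1, -1)

/-- positions -/
def P (v : VV) : ℤ × ℤ := (10 * (v.1.val : ℤ) + (off v.2).1, (off v.2).2)

/-- corners of the first drawing -/
def C₁ (u v : VV) : List (ℤ × ℤ) :=
  if u.1 = v.1 then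
    if u.2 = 1 ∧ v.2 = 2 then [(10 * (u.1.val : ℤ) + 3, -3), (10 * (u.1.val : ℤ) - 3, -3)]
    else if u.2 = 2 ∧ v.2 = 1 then [(10 * (u.1.val : ℤ) - 3, -3), (10 * (u.1.val : ℤ) + 3, -3)]
    else []
  else []

/-- corners of the second drawing -/
def C₂ (u v : VV) : List (ℤ × ℤ) :=
  if u.1 = v.1 then
    if u.2 = 3 ∧ v.2 = 4 then [(10 * (u.1.val : ℤ) - 3, 3), (10 * (u.1.val : ℤ) + 3, 3)]
    else if u.2 = 4 ∧ v.2 = 3 then [(10 * (u.1.val : ℤ) + 3, 3), (10 * (u.1.val : ℤ) - 3, 3)]
    else []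
  else []

/-- common members -/
def common (u v x y : VV) : List VV := [u, v].filter fun w => decide (w = x) || decide (w = y)

theorem common_spec {u v x y : VV} : ∀ w ∈ common u v x y, (w = u ∨ w = v) ∧ (w = x ∨ w = y) := by
  intro w hw
  simpa [common] using hw

theorem P_inj : Function.Injective P := by
  have : ∀ u v : VV, P u = P v → u = v := by decide +kernel
  exact fun u v h => this u v h

theorem symm₁ : ∀ u v : VV, G₁.Adj u v → C₁ v u = (C₁ u v).reverse := by decide +kernel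
theorem symm₂ : ∀ u v : VV, G₂.Adj u v → C₂ v u = (C₂ u v).reverse := by decide +kernel

theorem simple₁ : ∀ u v : VV, G₁.Adj u v → simpleTest (P u :: (C₁ u v ++ [P v])) = true := by
  decide +kernel
theorem simple₂ : ∀ u v : VV, G₂.Adj u v → simpleTest (P u :: (C₂ u v ++ [P v])) = true := by
  decide +kernel

theorem off₁ : ∀ u v : VV, G₁.Adj u v → ∀ w, w ≠ u → w ≠ v →
      polyTest [] [P w] (P u :: (C₁ u v ++ [P v])) = true := by
  decide +kernel
theorem off₂ : ∀ u v : VV, G₂.Adj u v → ∀ w, w ≠ u → w ≠ v →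
      polyTest [] [P w] (P u :: (C₂ u v ++ [P v])) = true := by
  decide +kernel

theorem cross₁ : ∀ u v : VV, G₁.Adj u v → ∀ x y, G₁.Adj x y → s(u, v) ≠ s(x, y) →
    polyTest ((common u v x y).map P) (P u :: (C₁ u v ++ [P v])) (P x :: (C₁ x y ++ [P y]))
      = true := by
  decide +kernel
theorem cross₂ : ∀ u v : VV, G₂.Adj u v → ∀ x y, G₂.Adj x y → s(u, v) ≠ s(x, y) →
    polyTest ((common u v x y).map P) (P u :: (C₂ u v ++ [P v])) (P x :: (C₂ x y ++ [P y]))
      = true := by
  decide +kernel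

/-- the reference drawing of the first graph -/
def D₁ : PlaneDrawing G₁ := drawing G₁ P C₁ symm₁ P_inj simple₁ off₁
  fun u v h1 x y h2 hne => ⟨common u v x y, cross₁ u v h1 x y h2 hne, common_spec⟩

/-- the reference drawing of the second graph -/
def D₂ : PlaneDrawing G₂ := drawing G₂ P C₂ symm₂ P_inj simple₂ off₂
  fun u v h1 x y h2 hne => ⟨common u v x y, cross₂ u v h1 x y h2 hne, common_spec⟩

end Pool.Agent.Helper97_Bends
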