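import Pool.Agent.Helper97_Bends.Facts
import Pool.Agent.Helper97_Bends.NoOneBend

/-!
# Compatible embeddings without a simultaneous drawing with one bend per exclusive edge

Three copies of the star with centre `c` and leaves `a, b, d, e` form the shared graph.  The first
graph has the further edges `ab` (one in every copy) and an edge from the leaf `a` of each of the
first two copies to the leaf `b` of the next one; the second graph has the edges `de` and an edge
from the leaf `e` to the leaf `d` of the next copy.  In the first embedding, the triangle `c, a, b`
of each copy separates `d, e` of this copy from the other copies; in the second embedding the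
triangle `c, d, e` separates `a, b` from the other copies.

In a drawing whose shared edges are straight and whose exclusive edges have at most one bend, one
of the copies has `d, e` in the inside of the curve `c, a, b` and `a, b` in the inside of the curve
`c, d, e` (pigeonhole over the three copies).  Each of the vertices `a, b, d, e` and each bend is
then above the minimum of every linear functional on the two curves, and this puts `d, e` into the
sector of `a, b` at `c` and `a, b` into the sector of `d, e`, which is impossible.
-/

set_option autoImplicit false

namespace Pool.Agent.Helper97_Bends.Second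

open Pool.Agent.Helper97_Bends

/-- There are compatible embeddings of two connected planar graphs that are realised by a
`(0, 2)`-drawing but by no `(0, 1)`-drawing. -/
theorem result : ∃ (V : Type) (G₁ G₂ : SimpleGraph V) (D₁ : PlaneDrawing G₁)
    (D₂ : PlaneDrawing G₂), Finite V ∧ G₁.Connected ∧ G₂.Connected ∧ Compatible D₁ D₂ ∧
      IsBendDrawing 0 2 D₁ D₂ ∧
      ∀ (D₁' : PlaneDrawing G₁) (D₂' : PlaneDrawing G₂),
        D₁.SameEmbedding D₁' → D₂.SameEmbedding D₂' → ¬ IsBendDrawing 0 1 D₁' D₂' := by
  refine ⟨VV, G₁, G₂, D₁, D₂, inferInstance, G₁_connected, G₂_connected, D_compatible, D_bends,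
    fun D₁' D₂' e₁ e₂ hb => ?_⟩
  exact no_one_bend D₁' D₂' hb
    (fun j => (e₁.position _ (Z₁ j) (Z₁_cycle j) _ _).1 (same₁ j))
    (fun j k h hs => differ₁ j k h ((e₁.position _ (Z₁ j) (Z₁_cycle j) _ _).2 hs))
    (fun j => (e₂.position _ (Z₂ j) (Z₂_cycle j) _ _).1 (same₂ j))
    (fun j k h hs => differ₂ j k h ((e₂.position _ (Z₂ j) (Z₂_cycle j) _ _).2 hs))

end Pool.Agent.Helper97_Bends.Second
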